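import Mathlib

/-!
Sums of distinct numbers `p^a q^b`: counting function, first digit decomposition.
-/

namespace Pool.Agent.X34.PQ

open Finset

/-- weight of an index -/
def w (p q : ℕ) (x : ℕ × ℕ) : ℕ := p ^ x.1 * q ^ x.2

/-- weight of a finite set of indices -/
def wt (p q : ℕ) (T : Finset (ℕ × ℕ)) : ℕ := ∑ x ∈ T, w p q x

/-- row sums -/
def rs (q : ℕ) (B : Finset ℕ) : ℕ := ∑ j ∈ B, q ^ j

def Reps (p q n : ℕ) : Set (Finset (ℕ × ℕ)) := {T | wt p q T = n}

noncomputable def F (p q n : ℕ) : ℕ := (Reps p q n).ncard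

theorem w_pos {p q : ℕ} (hp : 2 ≤ p) (hq : 2 ≤ q) (x : ℕ × ℕ) : 0 < w p q x := by
  unfold w; positivity

theorem w_le {p q : ℕ} {T : Finset (ℕ × ℕ)} {x : ℕ × ℕ} (hx : x ∈ T) : w p q x ≤ wt p q T := by
  unfold wt
  exact Finset.single_le_sum (f := fun x => w p q x) (fun _ _ => Nat.zero_le _) hx

theorem fst_lt {p q : ℕ} (hp : 2 ≤ p) (hq : 2 ≤ q) (x : ℕ × ℕ) : x.1 < w p q x := by
  unfold w
  calc x.1 < p ^ x.1 := Nat.lt_pow_self (by omega)
    _ ≤ p ^ x.1 * q ^ x.2 := Nat.le_mul_of_pos_right _ (by positivity)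

theorem snd_lt {p q : ℕ} (hp : 2 ≤ p) (hq : 2 ≤ q) (x : ℕ × ℕ) : x.2 < w p q x := by
  unfold w
  calc x.2 < q ^ x.2 := Nat.lt_pow_self (by omega)
    _ ≤ p ^ x.1 * q ^ x.2 := Nat.le_mul_of_pos_left _ (by positivity)

theorem sub_box {p q : ℕ} (hp : 2 ≤ p) (hq : 2 ≤ q) {n : ℕ} {T : Finset (ℕ × ℕ)}
    (hT : wt p q T ≤ n) : T ⊆ range n ×ˢ range n := by
  intro x hx
  have h1 := w_le (p := p) (q := q) hx
  have h2 := fst_lt hp hq x
  have h3 := snd_lt hp hq x
  simp only [mem_product, mem_range]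
  constructor <;> omega

theorem finite_le {p q : ℕ} (hp : 2 ≤ p) (hq : 2 ≤ q) (n : ℕ) :
    {T : Finset (ℕ × ℕ) | wt p q T ≤ n}.Finite := by
  apply (Finset.finite_toSet ((range n ×ˢ range n).powerset)).subset
  intro T hT
  simp only [Set.mem_ofPred_eq] at hT
  simp only [coe_powerset, Set.mem_preimage, Set.mem_powerset_iff, coe_subset]
  exact sub_box hp hq hT

theorem finite_reps {p q : ℕ} (hp : 2 ≤ p) (hq : 2 ≤ q) (n : ℕ) : (Reps p q n).Finite := by
  apply (finite_le hp hq n).subset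
  intro T hT
  simp only [Reps, Set.mem_ofPred_eq] at hT ⊢
  omega

/-- the two embeddings -/
def e0 : ℕ ↪ ℕ × ℕ := ⟨fun j => (0, j), fun a b h => by simpa using h⟩

def e1 (k : ℕ) : ℕ × ℕ ↪ ℕ × ℕ := ⟨fun x => (x.1 + k, x.2), fun a b h => by
  simp only [Prod.mk.injEq] at h
  ext
  · omega
  · exact h.2⟩

theorem e0_apply (j : ℕ) : e0 j = (0, j) := rfl

theorem e1_apply (k : ℕ) (x : ℕ × ℕ) : e1 k x = (x.1 + k, x.2) := rfl

/-- reassembling -/
def asm (B : Finset ℕ) (T : Finset (ℕ × ℕ)) : Finset (ℕ × ℕ) := B.map e0 ∪ T.map (e1 1)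

def bot (T : Finset (ℕ × ℕ)) : Finset ℕ := (T.filter (fun x => x.1 = 0)).image Prod.snd

def top (T : Finset (ℕ × ℕ)) : Finset (ℕ × ℕ) :=
  (T.filter (fun x => x.1 ≠ 0)).image (fun x => (x.1 - 1, x.2))

theorem mem_asm (B : Finset ℕ) (T : Finset (ℕ × ℕ)) (x : ℕ × ℕ) :
    x ∈ asm B T ↔ (x.1 = 0 ∧ x.2 ∈ B) ∨ (x.1 ≠ 0 ∧ (x.1 - 1, x.2) ∈ T) := by
  obtain ⟨i, j⟩ := x
  simp only [asm, mem_union, mem_map, e0_apply, e1_apply, Prod.mk.injEq]
  constructor
  · rintro (⟨a, ha, h1, h2⟩ | ⟨⟨a, b⟩, ha, h1, h2⟩)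
    · left; subst h2; exact ⟨h1.symm, ha⟩
    · right
      simp only at h1 h2
      subst h1; subst h2
      exact ⟨by omega, by simpa using ha⟩
  · rintro (⟨h1, h2⟩ | ⟨h1, h2⟩)
    · left; exact ⟨j, h2, h1.symm, rfl⟩
    · right; exact ⟨(i - 1, j), h2, by omega, rfl⟩

theorem mem_bot (T : Finset (ℕ × ℕ)) (j : ℕ) : j ∈ bot T ↔ (0, j) ∈ T := by
  simp only [bot, mem_image, mem_filter]
  constructor
  · rintro ⟨⟨a, b⟩, ⟨h1, h2⟩, h3⟩
    simp only at h2 h3
    subst h2; subst h3; exact h1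
  · intro h
    exact ⟨(0, j), ⟨h, rfl⟩, rfl⟩

theorem mem_top (T : Finset (ℕ × ℕ)) (i j : ℕ) : (i, j) ∈ top T ↔ (i + 1, j) ∈ T := by
  simp only [top, mem_image, mem_filter]
  constructor
  · rintro ⟨⟨a, b⟩, ⟨h1, h2⟩, h3⟩
    simp only [Prod.mk.injEq] at h2 h3
    obtain ⟨h3, h4⟩ := h3
    subst h4
    have : i + 1 = a := by omega
    rw [this]; exact h1
  · intro h
    exact ⟨(i + 1, j), ⟨h, by simp⟩, by simp⟩

theorem asm_bot_top (T : Finset (ℕ × ℕ)) : asm (bot T) (top T) = T := by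
  ext ⟨i, j⟩
  rw [mem_asm]
  simp only [mem_bot, mem_top]
  rcases Nat.eq_zero_or_pos i with h | h
  · subst h; simp
  · have : i - 1 + 1 = i := by omega
    simp [this, h.ne']

theorem bot_asm (B : Finset ℕ) (T : Finset (ℕ × ℕ)) : bot (asm B T) = B := by
  ext j
  rw [mem_bot, mem_asm]; simp

theorem top_asm (B : Finset ℕ) (T : Finset (ℕ × ℕ)) : top (asm B T) = T := by
  ext ⟨i, j⟩
  rw [mem_top, mem_asm]; simp

theorem wt_union {p q : ℕ} {S T : Finset (ℕ × ℕ)} (h : Disjoint S T) :
    wt p q (S ∪ T) = wt p q S + wt p q T := by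
  unfold wt; exact Finset.sum_union h

theorem wt_map_e1 (p q k : ℕ) (T : Finset (ℕ × ℕ)) : wt p q (T.map (e1 k)) = p ^ k * wt p q T := by
  unfold wt
  rw [Finset.sum_map, Finset.mul_sum]
  refine Finset.sum_congr rfl fun x _ => ?_
  rw [e1_apply]; unfold w; rw [pow_add]; ring

theorem wt_map_e0 (p q : ℕ) (B : Finset ℕ) : wt p q (B.map e0) = rs q B := by
  unfold wt rs
  rw [Finset.sum_map]
  refine Finset.sum_congr rfl fun x _ => ?_
  rw [e0_apply]; simp [w]

theorem wt_asm (p q : ℕ) (B : Finset ℕ) (T : Finset (ℕ × ℕ)) :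
    wt p q (asm B T) = rs q B + p * wt p q T := by
  unfold asm
  rw [wt_union, wt_map_e0, wt_map_e1, pow_one]
  rw [Finset.disjoint_left]
  intro x hx hx'
  simp only [mem_map, e0_apply, e1_apply] at hx hx'
  obtain ⟨a, _, rfl⟩ := hx
  obtain ⟨b, _, h⟩ := hx'
  simp at h

theorem wt_decomp (p q : ℕ) (T : Finset (ℕ × ℕ)) :
    wt p q T = rs q (bot T) + p * wt p q (top T) := by
  conv_lhs => rw [← asm_bot_top T]
  exact wt_asm p q _ _

/-- swapping the roles -/
theorem F_swap (p q n : ℕ) : F p q n = F q p n := by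
  unfold F
  have hinj : Function.Injective (fun T : Finset (ℕ × ℕ) => T.map (Equiv.prodComm ℕ ℕ).toEmbedding) :=
    Finset.map_injective _
  have hw : ∀ (a b : ℕ) (T : Finset (ℕ × ℕ)),
      wt b a (T.map (Equiv.prodComm ℕ ℕ).toEmbedding) = wt a b T := by
    intro a b T
    unfold wt
    rw [Finset.sum_map]
    refine Finset.sum_congr rfl fun x _ => ?_
    simp [w, mul_comm]
  rw [← Set.ncard_image_of_injective (Reps p q n) hinj]
  congr 1
  ext T
  simp only [Reps, Set.mem_image, Set.mem_ofPred_eq]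
  constructor
  · rintro ⟨S, hS, rfl⟩
    rw [hw]; exact hS
  · intro hT
    refine ⟨T.map (Equiv.prodComm ℕ ℕ).toEmbedding, ?_, ?_⟩
    · rw [hw]; exact hT
    · ext ⟨a, b⟩; simp

theorem F_zero {p q : ℕ} (hp : 2 ≤ p) (hq : 2 ≤ q) : F p q 0 = 1 := by
  unfold F
  have : Reps p q 0 = {∅} := by
    ext T
    simp only [Reps, Set.mem_ofPred_eq, Set.mem_singleton_iff]
    constructor
    · intro h
      by_contra hne
      obtain ⟨x, hx⟩ := Finset.nonempty_iff_ne_empty.2 hne
      have := w_le (p := p) (q := q) hx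
      have := w_pos hp hq x
      omega
    · rintro rfl; simp [wt]
  rw [this, Set.ncard_singleton]

/-- extension of `F` to the integers by zero -/
noncomputable def FZ (p q : ℕ) (z : ℤ) : ℕ := if 0 ≤ z then F p q z.toNat else 0

theorem FZ_neg {p q : ℕ} {z : ℤ} (h : z < 0) : FZ p q z = 0 := by
  unfold FZ; rw [if_neg (by omega)]

theorem FZ_nat (p q n : ℕ) : FZ p q (n : ℤ) = F p q n := by
  unfold FZ; simp

/-- the recursion along the first row -/
theorem FZ_rec {p q : ℕ} (hp : 2 ≤ p) (hq : 2 ≤ q) (z : ℤ) (N : ℕ) (hN : z ≤ N) :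
    FZ p q z = ∑ B ∈ (range N).powerset,
      if (p : ℤ) ∣ z - rs q B then FZ p q ((z - rs q B) / p) else 0 := by
  classical
  have hp0 : (0 : ℤ) < p := by exact_mod_cast (by omega : 0 < p)
  rcases lt_or_ge z 0 with hz | hz
  · rw [FZ_neg hz]
    symm
    apply Finset.sum_eq_zero
    intro B _
    split_ifs with h
    · apply FZ_neg
      apply Int.ediv_neg_of_neg_of_pos _ hp0
      have : (0 : ℤ) ≤ rs q B := by positivity
      omega
    · rfl
  · obtain ⟨n, rfl⟩ := Int.eq_ofNat_of_zero_le hz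
    rw [FZ_nat]
    have hnN : n ≤ N := by exact_mod_cast hN
    unfold F
    set R := (finite_reps hp hq n).toFinset with hR
    have hcard : (Reps p q n).ncard = R.card := by
      rw [Set.ncard_eq_toFinset_card _ (finite_reps hp hq n)]
    rw [hcard]
    have hmaps : ∀ T ∈ R, bot T ∈ (range N).powerset := by
      intro T hT
      rw [hR, Set.Finite.mem_toFinset] at hT
      have hb := sub_box hp hq (n := n) (T := T) (le_of_eq hT)
      rw [mem_powerset]
      intro j hj
      rw [mem_bot] at hj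
      have := hb hj
      simp only [mem_product, mem_range] at this ⊢
      omega
    rw [Finset.card_eq_sum_card_fiberwise hmaps]
    refine Finset.sum_congr rfl fun B _ => ?_
    split_ifs with hdiv
    · rcases lt_or_ge (n : ℤ) (rs q B) with hlt | hge
      · have h1 : FZ p q (((n : ℤ) - rs q B) / p) = 0 := by
          apply FZ_neg
          exact Int.ediv_neg_of_neg_of_pos (by omega) hp0
        rw [h1, Finset.card_eq_zero, Finset.filter_eq_empty_iff]
        intro T hT hB
        rw [hR, Set.Finite.mem_toFinset] at hT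
        have h2 : wt p q T = n := hT
        rw [wt_decomp, hB] at h2
        have : rs q B ≤ n := by omega
        have : (rs q B : ℤ) ≤ n := by exact_mod_cast this
        omega
      · obtain ⟨c, hc⟩ := hdiv
        have hc0 : 0 ≤ c := by
          by_contra hneg
          have : (p : ℤ) * c < 0 := mul_neg_of_pos_of_neg hp0 (by omega)
          omega
        obtain ⟨c', rfl⟩ := Int.eq_ofNat_of_zero_le hc0
        rw [hc, Int.mul_ediv_cancel_left _ hp0.ne']
        change _ = FZ p q (c' : ℤ)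
        rw [FZ_nat]
        unfold F
        rw [Set.ncard_eq_toFinset_card _ (finite_reps hp hq c')]
        have hn : n = rs q B + p * c' := by
          have : (n : ℤ) = rs q B + p * c' := by linarith
          exact_mod_cast this
        refine Finset.card_nbij' top (asm B) ?_ ?_ ?_ ?_
        · intro T hT
          simp only [coe_filter, Set.mem_ofPred_eq] at hT
          obtain ⟨hT, hB⟩ := hT
          rw [hR, Set.Finite.mem_toFinset] at hT
          have h2 : wt p q T = n := hT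
          rw [wt_decomp, hB] at h2
          simp only [Set.Finite.coe_toFinset, Reps, Set.mem_ofPred_eq]
          have : p * wt p q (top T) = p * c' := by omega
          exact Nat.eq_of_mul_eq_mul_left (by omega) this
        · intro T hT
          simp only [Set.Finite.coe_toFinset, Reps, Set.mem_ofPred_eq] at hT
          simp only [coe_filter, Set.mem_ofPred_eq]
          refine ⟨?_, bot_asm _ _⟩
          rw [hR, Set.Finite.mem_toFinset]
          change wt p q _ = n
          rw [wt_asm, hT, hn]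
        · intro T hT
          simp only [coe_filter, Set.mem_ofPred_eq] at hT
          rw [← hT.2]; exact asm_bot_top T
        · intro T hT
          exact top_asm _ _
    · rw [Finset.card_eq_zero, Finset.filter_eq_empty_iff]
      intro T hT hB
      rw [hR, Set.Finite.mem_toFinset] at hT
      have h2 : wt p q T = n := hT
      rw [wt_decomp, hB] at h2
      apply hdiv
      refine ⟨wt p q (top T), ?_⟩
      have : (n : ℤ) = rs q B + p * wt p q (top T) := by exact_mod_cast h2.symm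
      linarith

end Pool.Agent.X34.PQ
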