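import Pool.Agent.X34.PQ.Step

/-!
Every large integer is a sum of distinct `p^a q^b` with bounded `b`.
-/

namespace Pool.Agent.X34.PQ

open Finset

def sw (T : Finset (ℕ × ℕ)) : Finset (ℕ × ℕ) := T.map (Equiv.prodComm ℕ ℕ).toEmbedding

theorem mem_sw (T : Finset (ℕ × ℕ)) (x : ℕ × ℕ) : x ∈ sw T ↔ (x.2, x.1) ∈ T := by
  obtain ⟨a, b⟩ := x
  simp [sw]

theorem wt_sw (p q : ℕ) (T : Finset (ℕ × ℕ)) : wt p q (sw T) = wt q p T := by
  unfold wt sw
  rw [Finset.sum_map]
  refine Finset.sum_congr rfl fun x _ => ?_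
  simp [w, mul_comm]

theorem wt_mono {p q : ℕ} {S T : Finset (ℕ × ℕ)} (h : S ⊆ T) : wt p q S ≤ wt p q T := by
  unfold wt; exact Finset.sum_le_sum_of_subset h

theorem fst_lt_wt {p q : ℕ} (hp : 2 ≤ p) (hq : 2 ≤ q) {T : Finset (ℕ × ℕ)} {x : ℕ × ℕ}
    (hx : x ∈ T) : x.1 < wt p q T := (fst_lt hp hq x).trans_le (w_le hx)

theorem snd_lt_wt {p q : ℕ} (hp : 2 ≤ p) (hq : 2 ≤ q) {T : Finset (ℕ × ℕ)} {x : ℕ × ℕ}
    (hx : x ∈ T) : x.2 < wt p q T := (snd_lt hp hq x).trans_le (w_le hx)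

theorem mem_e1 (k : ℕ) (T : Finset (ℕ × ℕ)) (x : ℕ × ℕ) :
    x ∈ T.map (e1 k) ↔ k ≤ x.1 ∧ (x.1 - k, x.2) ∈ T := by
  obtain ⟨i, j⟩ := x
  simp only [mem_map, e1_apply, Prod.mk.injEq]
  constructor
  · rintro ⟨⟨a, b⟩, h, h1, h2⟩
    simp only at h1 h2
    subst h1; subst h2
    exact ⟨by omega, by simpa using h⟩
  · rintro ⟨h1, h2⟩
    exact ⟨(i - k, j), h2, by simp only; omega, rfl⟩

theorem one_le_rs {p q : ℕ} (hp : 2 ≤ p) : 1 ≤ rs q (range (p - 1)) := by
  have : rs q {0} ≤ rs q (range (p - 1)) := by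
    apply rs_mono
    intro x hx
    simp only [mem_singleton] at hx
    subst hx
    simp only [mem_range]; omega
  simpa [rs] using this

/-- all residues modulo `p^k` by small sums using few rows -/
theorem digits {p q : ℕ} (hp : 2 ≤ p) (hcop : Nat.Coprime q p) (k : ℕ) (a : ℤ) :
    ∃ T : Finset (ℕ × ℕ), (∀ x ∈ T, x.1 < k ∧ x.2 < p - 1) ∧ ((p : ℤ) ^ k) ∣ a - wt p q T ∧
      wt p q T + rs q (range (p - 1)) ≤ rs q (range (p - 1)) * p ^ k := by
  induction k with
  | zero => exact ⟨∅, by simp, by simp, by simp [wt]⟩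
  | succ k ih =>
    obtain ⟨T, h1, ⟨c, hc⟩, h3⟩ := ih
    obtain ⟨B, hB, hBc⟩ := cover hp hcop (c : ZMod p)
    have hdvd := (dvd_iff_cls (p := p) (q := q) c B).2 hBc
    obtain ⟨d, hd⟩ := hdvd
    have hdisj : Disjoint T ((B.map e0).map (e1 k)) := by
      rw [Finset.disjoint_left]
      intro x hx hx'
      rw [mem_e1] at hx'
      have := (h1 x hx).1
      omega
    have hw : wt p q (T ∪ (B.map e0).map (e1 k)) = wt p q T + p ^ k * rs q B := by
      rw [wt_union hdisj, wt_map_e1, wt_map_e0]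
    refine ⟨T ∪ (B.map e0).map (e1 k), ?_, ?_, ?_⟩
    · intro x hx
      rw [mem_union] at hx
      rcases hx with hx | hx
      · have := h1 x hx; omega
      · rw [mem_e1] at hx
        obtain ⟨h4, h5⟩ := hx
        simp only [mem_map, e0_apply, Prod.mk.injEq] at h5
        obtain ⟨j, hj, h6, h7⟩ := h5
        have := hB hj
        simp only [mem_range] at this
        omega
    · rw [hw]
      refine ⟨d, ?_⟩
      push_cast
      have : a - ((wt p q T : ℤ) + (p : ℤ) ^ k * rs q B) = (p : ℤ) ^ k * (c - rs q B) := by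
        rw [mul_sub, ← hc]; ring
      rw [this, hd]; ring
    · rw [hw]
      have h4 : rs q B ≤ rs q (range (p - 1)) := rs_mono hB
      have h5 : p ^ k * rs q B ≤ p ^ k * rs q (range (p - 1)) := Nat.mul_le_mul_left _ h4
      have h6 : rs q (range (p - 1)) * p ^ k * 2 ≤ rs q (range (p - 1)) * p ^ k * p :=
        Nat.mul_le_mul_left _ hp
      have h7 : rs q (range (p - 1)) * p ^ (k + 1) = rs q (range (p - 1)) * p ^ k * p := by ring
      have h8 : p ^ k * rs q (range (p - 1)) = rs q (range (p - 1)) * p ^ k := by ring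
      omega

theorem exists_scale {p C Q : ℕ} (hp : 2 ≤ p) (hC : 1 ≤ C) (hQ : C ≤ Q) :
    ∃ k, C * p ^ k ≤ Q ∧ Q < C * p ^ (k + 1) := by
  refine ⟨Nat.log p (Q / C), ?_, ?_⟩
  · have h1 : p ^ Nat.log p (Q / C) ≤ Q / C := by
      apply Nat.pow_log_le_self
      have : 1 ≤ Q / C := by rw [Nat.le_div_iff_mul_le (by omega)]; omega
      omega
    rw [Nat.le_div_iff_mul_le (by omega)] at h1
    rw [mul_comm]; exact h1
  · have h1 : Q / C < p ^ (Nat.log p (Q / C) + 1) := Nat.lt_pow_succ_log_self (by omega) _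
    rw [Nat.div_lt_iff_lt_mul (by omega)] at h1
    rw [mul_comm]; exact h1

/-- two sums far out with bounded difference -/
theorem bdd_diff {p q : ℕ} (hp : 2 ≤ p) (hq : 2 ≤ q) (hcop : Nat.Coprime q p) :
    ∃ H : ℕ, ∀ M : ℕ, ∃ Tp Tm : Finset (ℕ × ℕ), (∀ x ∈ Tp, M ≤ x.1 ∨ M ≤ x.2) ∧
      (∀ x ∈ Tm, M ≤ x.1 ∨ M ≤ x.2) ∧ ∃ h, 1 ≤ h ∧ h ≤ H ∧ wt p q Tp = wt p q Tm + h := by
  set C1 := rs q (range (p - 1)) with hC1
  set C2 := rs p (range (q - 1)) with hC2
  have hC1' : 1 ≤ C1 := one_le_rs hp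
  have hC2' : 1 ≤ C2 := one_le_rs hq
  set K0 := C1 * C2 * p * q with hK0
  have hK0' : 1 ≤ K0 := by
    rw [hK0]
    have : 0 < C1 * C2 * p * q := by positivity
    omega
  refine ⟨4 * K0, fun M => ?_⟩
  set M' := M + p + q + C1 + C2 + 3 * K0 with hM'
  have hqM : M' < q ^ M' := Nat.lt_pow_self (by omega)
  have hpM : M' < p ^ M' := Nat.lt_pow_self (by omega)
  obtain ⟨k, hk1, hk2⟩ := exists_scale hp hC1' (show C1 ≤ q ^ M' by omega)
  obtain ⟨l, hl1, hl2⟩ := exists_scale hq hC2' (show C2 ≤ p ^ M' by omega)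
  choose X hX1 hX2 hX3 using fun a : ℕ => digits (p := p) (q := q) hp hcop k (a : ℤ)
  choose Y hY1 hY2 hY3 using fun a : ℕ => digits (p := q) (q := p) hq hcop.symm l (a : ℤ)
  set Z : ℕ × ℕ → Finset (ℕ × ℕ) := fun ab => (X ab.1).map (e1 M') ∪ sw ((Y ab.2).map (e1 M')) with hZ
  have hZw : ∀ ab, wt p q (Z ab) = p ^ M' * wt p q (X ab.1) + q ^ M' * wt q p (Y ab.2) := by
    intro ab
    rw [hZ]
    simp only
    rw [wt_union, wt_map_e1, wt_sw, wt_map_e1]
    rw [Finset.disjoint_left]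
    intro x hx hx'
    rw [mem_e1] at hx
    rw [mem_sw, mem_e1] at hx'
    have h1 := (hX1 _ _ hx.2).2
    have h2 := hx'.1
    simp only at h1 h2
    omega
  have hXlt : ∀ a, wt p q (X a) < q ^ M' := by
    intro a
    have := hX3 a
    rw [← hC1] at this
    omega
  have hYlt : ∀ a, wt q p (Y a) < p ^ M' := by
    intro a
    have := hY3 a
    rw [← hC2] at this
    omega
  have hXinj : ∀ a ∈ range (p ^ k), ∀ b ∈ range (p ^ k), wt p q (X a) = wt p q (X b) → a = b := by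
    intro a ha b hb hab
    have h1 := hX2 a
    have h2 := hX2 b
    rw [hab] at h1
    have h3 : ((p : ℤ) ^ k) ∣ (a : ℤ) - b := by
      have := dvd_sub h1 h2
      have e : (a : ℤ) - wt p q (X b) - (b - wt p q (X b)) = a - b := by ring
      rwa [e] at this
    have h4 : ((p ^ k : ℕ) : ℤ) ∣ (a : ℤ) - b := by exact_mod_cast h3
    have h5 : b ≡ a [MOD p ^ k] := (Nat.modEq_iff_dvd).2 h4
    rw [mem_range] at ha hb
    have h6 := Nat.ModEq.eq_of_lt_of_lt h5 hb ha
    exact h6.symm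
  have hYinj : ∀ a ∈ range (q ^ l), ∀ b ∈ range (q ^ l), wt q p (Y a) = wt q p (Y b) → a = b := by
    intro a ha b hb hab
    have h1 := hY2 a
    have h2 := hY2 b
    rw [hab] at h1
    have h3 : ((q : ℤ) ^ l) ∣ (a : ℤ) - b := by
      have := dvd_sub h1 h2
      have e : (a : ℤ) - wt q p (Y b) - (b - wt q p (Y b)) = a - b := by ring
      rwa [e] at this
    have h4 : ((q ^ l : ℕ) : ℤ) ∣ (a : ℤ) - b := by exact_mod_cast h3
    have h5 : b ≡ a [MOD q ^ l] := (Nat.modEq_iff_dvd).2 h4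
    rw [mem_range] at ha hb
    have h6 := Nat.ModEq.eq_of_lt_of_lt h5 hb ha
    exact h6.symm
  have hZinj : ∀ x ∈ range (p ^ k) ×ˢ range (q ^ l), ∀ y ∈ range (p ^ k) ×ˢ range (q ^ l),
      wt p q (Z x) = wt p q (Z y) → x = y := by
    rintro ⟨a, b⟩ hx ⟨c, d⟩ hy hxy
    rw [mem_product] at hx hy
    rw [hZw, hZw] at hxy
    simp only at hx hy hxy
    have h1 : p ^ M' * wt p q (X a) ≡ p ^ M' * wt p q (X c) [MOD q ^ M'] := by
      have e1 : p ^ M' * wt p q (X a) + q ^ M' * wt q p (Y b) ≡ p ^ M' * wt p q (X a) [MOD q ^ M'] := by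
        simp [Nat.ModEq]
      have e2 : p ^ M' * wt p q (X c) + q ^ M' * wt q p (Y d) ≡ p ^ M' * wt p q (X c) [MOD q ^ M'] := by
        simp [Nat.ModEq]
      rw [hxy] at e1
      exact e1.symm.trans e2
    have hc : Nat.gcd (q ^ M') (p ^ M') = 1 := (Nat.Coprime.pow _ _ hcop)
    have h2 := Nat.ModEq.cancel_left_of_coprime hc h1
    have h3 := Nat.ModEq.eq_of_lt_of_lt h2 (hXlt a) (hXlt c)
    have h4 := hXinj a hx.1 c hy.1 h3
    subst h4
    have h5 : q ^ M' * wt q p (Y b) = q ^ M' * wt q p (Y d) := by omega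
    have h6 := Nat.eq_of_mul_eq_mul_left (by positivity) h5
    have h7 := hYinj b hx.2 d hy.2 h6
    rw [h7]
  set Q := p ^ M' * q ^ M' with hQ
  have hZlt : ∀ ab, wt p q (Z ab) < 2 * Q := by
    intro ab
    rw [hZw]
    have h1 : p ^ M' * wt p q (X ab.1) < p ^ M' * q ^ M' :=
      Nat.mul_lt_mul_of_pos_left (hXlt _) (by positivity)
    have h2 : q ^ M' * wt q p (Y ab.2) < q ^ M' * p ^ M' :=
      Nat.mul_lt_mul_of_pos_left (hYlt _) (by positivity)
    have h3 : q ^ M' * p ^ M' = Q := by rw [hQ, mul_comm]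
    omega
  set Nn := p ^ k * q ^ l with hNn
  have hQN : Q < K0 * Nn := by
    have h1 : Q < (C2 * q ^ (l + 1)) * (C1 * p ^ (k + 1)) := by
      rw [hQ]
      exact Nat.mul_lt_mul'' hl2 hk2
    have h2 : (C2 * q ^ (l + 1)) * (C1 * p ^ (k + 1)) = K0 * Nn := by
      rw [hK0, hNn]; ring
    omega
  have hN4 : 3 < Nn := by
    have h1 : 3 * K0 ≤ Q := by
      have : p ^ M' * 1 ≤ Q := by
        rw [hQ]; exact Nat.mul_le_mul_left _ (Nat.one_le_pow _ _ (by omega))
      omega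
    by_contra hcon
    have : K0 * Nn ≤ K0 * 3 := Nat.mul_le_mul_left _ (by omega)
    omega
  have hcard : (range ((2 * Q) / (4 * K0) + 1)).card < (range (p ^ k) ×ˢ range (q ^ l)).card := by
    rw [card_range, card_product, card_range, card_range]
    change _ < Nn
    have h1 : (2 * Q) / (4 * K0) * (4 * K0) ≤ 2 * Q := Nat.div_mul_le_self _ _
    set D := (2 * Q) / (4 * K0)
    have h2 : (2 * D) * (2 * K0) < Nn * (2 * K0) := by nlinarith
    have h3 : 2 * D < Nn := Nat.lt_of_mul_lt_mul_right h2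
    omega
  obtain ⟨x, hx, y, hy, hne, hxy⟩ := Finset.exists_ne_map_eq_of_card_lt_of_maps_to hcard
    (f := fun ab => wt p q (Z ab) / (4 * K0)) (by
      intro ab _
      simp only [coe_range, Set.mem_Iio]
      have := Nat.div_le_div_right (c := 4 * K0) (hZlt ab).le
      omega)
  have hdiff : wt p q (Z x) ≠ wt p q (Z y) := fun h => hne (hZinj x hx y hy h)
  have hreg : ∀ ab, ∀ z ∈ Z ab, M ≤ z.1 ∨ M ≤ z.2 := by
    intro ab z hz
    rw [hZ] at hz
    simp only [mem_union] at hz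
    rcases hz with hz | hz
    · rw [mem_e1] at hz
      left; omega
    · rw [mem_sw, mem_e1] at hz
      right
      have := hz.1
      simp only at this
      omega
  have hmx := Nat.div_add_mod (wt p q (Z x)) (4 * K0)
  have hmy := Nat.div_add_mod (wt p q (Z y)) (4 * K0)
  have hlx := Nat.mod_lt (wt p q (Z x)) (show 0 < 4 * K0 by omega)
  have hly := Nat.mod_lt (wt p q (Z y)) (show 0 < 4 * K0 by omega)
  rw [hxy] at hmx
  rcases Nat.lt_or_gt_of_ne hdiff with h | h
  · exact ⟨Z y, Z x, hreg y, hreg x, wt p q (Z y) - wt p q (Z x), by omega, by omega, by omega⟩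
  · exact ⟨Z x, Z y, hreg x, hreg y, wt p q (Z x) - wt p q (Z y), by omega, by omega, by omega⟩

theorem same_diff {p q : ℕ} (hp : 2 ≤ p) (hq : 2 ≤ q) (hcop : Nat.Coprime q p) :
    ∃ h : ℕ, 1 ≤ h ∧ ∀ M : ℕ, ∃ Tp Tm : Finset (ℕ × ℕ), (∀ x ∈ Tp, M ≤ x.1 ∨ M ≤ x.2) ∧
      (∀ x ∈ Tm, M ≤ x.1 ∨ M ≤ x.2) ∧ wt p q Tp = wt p q Tm + h := by
  obtain ⟨H, hH⟩ := bdd_diff hp hq hcop
  by_contra hcon
  push Not at hcon
  have hcon' : ∀ h : ℕ, ∃ M : ℕ, 1 ≤ h → ∀ Tp Tm : Finset (ℕ × ℕ), (∀ x ∈ Tp, M ≤ x.1 ∨ M ≤ x.2) →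
      (∀ x ∈ Tm, M ≤ x.1 ∨ M ≤ x.2) → wt p q Tp ≠ wt p q Tm + h := by
    intro h
    by_cases h1 : 1 ≤ h
    · obtain ⟨M, hM⟩ := hcon h h1
      exact ⟨M, fun _ => hM⟩
    · exact ⟨0, fun h2 => absurd h2 h1⟩
  choose Mf hMf using hcon'
  obtain ⟨Tp, Tm, h1, h2, h, h3, h4, h5⟩ := hH (∑ h ∈ range (H + 1), Mf h)
  have hle : Mf h ≤ ∑ h ∈ range (H + 1), Mf h :=
    Finset.single_le_sum (f := Mf) (fun _ _ => Nat.zero_le _) (by simp; omega)
  refine hMf h h3 Tp Tm ?_ ?_ h5
  · intro x hx; have := h1 x hx; omega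
  · intro x hx; have := h2 x hx; omega

theorem progression {p q : ℕ} (hp : 2 ≤ p) (hq : 2 ≤ q) (hcop : Nat.Coprime q p) :
    ∃ h : ℕ, 1 ≤ h ∧ ∀ W M : ℕ, ∃ N x : ℕ, ∀ v ≤ W, ∃ T : Finset (ℕ × ℕ),
      (∀ y ∈ T, (M ≤ y.1 ∨ M ≤ y.2) ∧ y.1 < N ∧ y.2 < N) ∧ wt p q T = x + h * v := by
  obtain ⟨h, h1, hM⟩ := same_diff hp hq hcop
  refine ⟨h, h1, fun W => ?_⟩
  induction W with
  | zero =>
    intro M
    refine ⟨0, 0, fun v hv => ⟨∅, by simp, ?_⟩⟩
    have : v = 0 := by omega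
    subst this; simp [wt]
  | succ W ih =>
    intro M
    obtain ⟨N, x, hN⟩ := ih M
    obtain ⟨Tp, Tm, h2, h3, h4⟩ := hM (M + N)
    have hd : ∀ T T' : Finset (ℕ × ℕ), (∀ y ∈ T, (M ≤ y.1 ∨ M ≤ y.2) ∧ y.1 < N ∧ y.2 < N) →
        (∀ x ∈ T', M + N ≤ x.1 ∨ M + N ≤ x.2) → Disjoint T T' := by
      intro T T' hT hT'
      rw [Finset.disjoint_left]
      intro y hy hy'
      have := hT y hy
      have := hT' y hy'
      omega
    refine ⟨N + wt p q Tp + wt p q Tm, x + wt p q Tm, fun v hv => ?_⟩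
    rcases Nat.lt_or_ge W v with hlt | hge
    · have hvW : v = W + 1 := by omega
      obtain ⟨T, hT1, hT2⟩ := hN W le_rfl
      refine ⟨T ∪ Tp, ?_, ?_⟩
      · intro y hy
        rw [mem_union] at hy
        rcases hy with hy | hy
        · have := hT1 y hy; omega
        · have := h2 y hy
          have := fst_lt_wt hp hq hy
          have := snd_lt_wt hp hq hy
          omega
      · rw [wt_union (hd T Tp hT1 h2), hT2, h4, hvW]; ring
    · obtain ⟨T, hT1, hT2⟩ := hN v hge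
      refine ⟨T ∪ Tm, ?_, ?_⟩
      · intro y hy
        rw [mem_union] at hy
        rcases hy with hy | hy
        · have := hT1 y hy; omega
        · have := h3 y hy
          have := fst_lt_wt hp hq hy
          have := snd_lt_wt hp hq hy
          omega
      · rw [wt_union (hd T Tm hT1 h3), hT2]; ring

theorem cover_gen {p q : ℕ} (hp : 2 ≤ p) (hq : 2 ≤ q) (hcop : Nat.Coprime q p) (h : ℕ) (hh : 1 ≤ h) :
    ∃ U : Finset (ℕ × ℕ), ∀ c : ZMod h, ∃ V ⊆ U, (wt p q V : ZMod h) = c := by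
  have hnz : NeZero h := ⟨by omega⟩
  have key : ∀ k : ℕ, ∃ U : Finset (ℕ × ℕ), min h (k + 1) ≤
      (U.powerset.image (fun V => (wt p q V : ZMod h))).card := by
    intro k
    induction k with
    | zero =>
      refine ⟨∅, ?_⟩
      simp only [powerset_empty, image_singleton, card_singleton]
      omega
    | succ k ih =>
      obtain ⟨U, hU⟩ := ih
      set S := U.powerset.image (fun V => (wt p q V : ZMod h)) with hS
      rcases Nat.lt_or_ge S.card h with hlt | hge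
      · have hstep : ∀ z : ℕ × ℕ, z ∉ U → (∃ x ∈ S, x + ((w p q z : ℕ) : ZMod h) ∉ S) →
            S.card + 1 ≤ ((insert z U).powerset.image (fun V => (wt p q V : ZMod h))).card := by
          intro z hz ⟨x, hx, hx'⟩
          apply Finset.card_lt_card
          refine Finset.ssubset_iff_subset_ne.2 ⟨?_, ?_⟩
          · apply Finset.image_subset_image
            exact Finset.powerset_mono.2 (Finset.subset_insert _ _)
          · intro heq
            apply hx'
            rw [heq, mem_image]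
            rw [hS, mem_image] at hx
            obtain ⟨V, hV, rfl⟩ := hx
            rw [mem_powerset] at hV
            refine ⟨insert z V, ?_, ?_⟩
            · rw [mem_powerset]; exact Finset.insert_subset_insert _ hV
            · unfold wt
              rw [Finset.sum_insert (fun hc => hz (hV hc))]
              push_cast; ring
        have hz1 : (wt p q U + 1, 0) ∉ U := fun hc => by
          have := fst_lt_wt hp hq hc
          simp only at this; omega
        have hz2 : (0, wt p q U + 1) ∉ U := fun hc => by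
          have := snd_lt_wt hp hq hc
          simp only at this; omega
        by_cases hA : ∃ x ∈ S, x + ((w p q (wt p q U + 1, 0) : ℕ) : ZMod h) ∉ S
        · refine ⟨insert (wt p q U + 1, 0) U, ?_⟩
          have := hstep _ hz1 hA
          omega
        · by_cases hB : ∃ x ∈ S, x + ((w p q (0, wt p q U + 1) : ℕ) : ZMod h) ∉ S
          · refine ⟨insert (0, wt p q U + 1) U, ?_⟩
            have := hstep _ hz2 hB
            omega
          · exfalso
            push Not at hA hB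
            have := closed_univ S ⟨0, by
              rw [hS, mem_image]; exact ⟨∅, by simp, by simp [wt]⟩⟩ _ _ (by
                unfold w
                simp only [pow_zero, mul_one, one_mul]
                exact (Nat.Coprime.pow _ _ hcop.symm)) hA hB
            rw [this, card_univ, ZMod.card] at hlt
            omega
      · exact ⟨U, by rw [← hS]; omega⟩
  obtain ⟨U, hU⟩ := key h
  refine ⟨U, fun c => ?_⟩
  have h3 : U.powerset.image (fun V => (wt p q V : ZMod h)) = univ := by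
    apply Finset.eq_univ_of_card
    rw [ZMod.card]
    have := Finset.card_le_univ (U.powerset.image (fun V => (wt p q V : ZMod h)))
    rw [ZMod.card] at this
    omega
  have h4 : c ∈ U.powerset.image (fun V => (wt p q V : ZMod h)) := by
    rw [h3]; exact mem_univ _
  rw [mem_image] at h4
  obtain ⟨A, hA, hA'⟩ := h4
  exact ⟨A, by simpa using hA, hA'⟩

theorem long_interval {p q : ℕ} (hp : 2 ≤ p) (hq : 2 ≤ q) (hcop : Nat.Coprime q p) (L : ℕ) :
    ∃ a N : ℕ, ∀ n : ℕ, a ≤ n → n ≤ a + L → ∃ T : Finset (ℕ × ℕ),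
      (∀ x ∈ T, x.1 < N ∧ x.2 < N) ∧ wt p q T = n := by
  obtain ⟨h, hh, hprog⟩ := progression hp hq hcop
  have hnz : NeZero h := ⟨by omega⟩
  obtain ⟨U, hU⟩ := cover_gen hp hq hcop h hh
  obtain ⟨N, x, hN⟩ := hprog (L + wt p q U) (wt p q U)
  refine ⟨x + wt p q U, N + wt p q U, fun n hn1 hn2 => ?_⟩
  obtain ⟨V, hV, hVc⟩ := hU ((n - x : ℕ) : ZMod h)
  have hVU := wt_mono (p := p) (q := q) hV
  have hmod : wt p q V ≡ n - x [MOD h] := (ZMod.natCast_eq_natCast_iff _ _ _).1 hVc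
  have hdvd : h ∣ (n - x) - wt p q V := (Nat.modEq_iff_dvd' (by omega)).1 hmod
  obtain ⟨v, hv⟩ := hdvd
  have hvW : v ≤ L + wt p q U := by
    have : 1 * v ≤ h * v := Nat.mul_le_mul_right _ hh
    omega
  obtain ⟨T, hT1, hT2⟩ := hN v hvW
  refine ⟨T ∪ V, ?_, ?_⟩
  · intro y hy
    rw [mem_union] at hy
    rcases hy with hy | hy
    · have := hT1 y hy; omega
    · have := fst_lt_wt hp hq (hV hy)
      have := snd_lt_wt hp hq (hV hy)
      omega
  · rw [wt_union, hT2]
    · omega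
    · rw [Finset.disjoint_left]
      intro y hy hy'
      have h1 := hT1 y hy
      have h2 := fst_lt_wt hp hq (hV hy')
      have h3 := snd_lt_wt hp hq (hV hy')
      omega

theorem scaled {p q : ℕ} (hp : 2 ≤ p) (hq : 2 ≤ q) (hcop : Nat.Coprime q p) :
    ∃ a N : ℕ, ∀ k n : ℕ, p ^ k * a ≤ n → n ≤ p ^ k * (a + 1) → ∃ T : Finset (ℕ × ℕ),
      (∀ x ∈ T, x.2 < N) ∧ wt p q T = n := by
  set C1 := rs q (range (p - 1)) with hC1
  obtain ⟨a, N, haN⟩ := long_interval hp hq hcop (C1 + 1)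
  refine ⟨a + C1, N + p, fun k n h1 h2 => ?_⟩
  obtain ⟨T, hT1, hT2, hT3⟩ := digits (p := p) (q := q) hp hcop k (n : ℤ)
  rw [← hC1] at hT3
  have hpk : 0 < p ^ k := by positivity
  have h3 : wt p q T ≤ n := by
    have : p ^ k * C1 ≤ p ^ k * (a + C1) := Nat.mul_le_mul_left _ (by omega)
    have e : C1 * p ^ k = p ^ k * C1 := by ring
    omega
  have hT2' : p ^ k ∣ n - wt p q T := by
    have : ((p ^ k : ℕ) : ℤ) ∣ ((n - wt p q T : ℕ) : ℤ) := by
      rw [Nat.cast_sub h3]; push_cast; exact hT2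
    exact_mod_cast this
  obtain ⟨v, hv⟩ := hT2'
  have e : C1 * p ^ k = p ^ k * C1 := by ring
  have hva : a ≤ v := by
    have : p ^ k * a ≤ p ^ k * v := by
      rw [mul_add] at h1
      omega
    exact Nat.le_of_mul_le_mul_left this hpk
  have hvb : v ≤ a + (C1 + 1) := by
    have : p ^ k * v ≤ p ^ k * (a + (C1 + 1)) := by
      have : p ^ k * (a + C1 + 1) = p ^ k * (a + (C1 + 1)) := by ring
      omega
    exact Nat.le_of_mul_le_mul_left this hpk
  obtain ⟨T', hT'1, hT'2⟩ := haN v hva hvb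
  refine ⟨T ∪ T'.map (e1 k), ?_, ?_⟩
  · intro x hx
    rw [mem_union] at hx
    rcases hx with hx | hx
    · have := (hT1 x hx).2; omega
    · rw [mem_e1] at hx
      have := (hT'1 _ hx.2).2
      simp only at this; omega
  · rw [wt_union, wt_map_e1, hT'2]
    · omega
    · rw [Finset.disjoint_left]
      intro x hx hx'
      rw [mem_e1] at hx'
      have := (hT1 x hx).1
      omega

end Pool.Agent.X34.PQ
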