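import Pool.Agent.X34.PQ.Reg

/-!
The growth of `F` under dilation by an arbitrary integer.
-/

namespace Pool.Agent.X34.PQ

open Finset

theorem up {p q : ℕ} (hp : 2 ≤ p) (hq : 2 ≤ q) (hcop : Nat.Coprime q p) {ε : ℝ} (hε : 0 < ε) :
    ∃ (c : ℝ) (n2 : ℕ), ∀ n, n2 ≤ n → Real.log (F p q (p * n)) ≤
      Real.log (F p q n) + (Real.log 2 / Real.log q + ε) * Real.log n + c := by
  obtain ⟨c, n1, hc, hn1, hmono⟩ := near_mono hp hq hcop hε
  have hlp : 0 < Real.log p := Real.log_pos (by exact_mod_cast (by omega : 1 < p))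
  have hlq : 0 < Real.log q := Real.log_pos (by exact_mod_cast (by omega : 1 < q))
  have hl2 : 0 < Real.log 2 := Real.log_pos (by norm_num)
  refine ⟨Real.log 2 / Real.log q * Real.log p + Real.log 2 + c, n1, fun n hn => ?_⟩
  have hn0 : (0 : ℝ) < n := by exact_mod_cast (by omega : 0 < n)
  have hp0 : (0 : ℝ) < p := by exact_mod_cast (by omega : 0 < p)
  have hq0 : (0 : ℝ) < q := by exact_mod_cast (by omega : 0 < q)
  have hpn : n1 ≤ p * n := by nlinarith
  have hF1 : (1 : ℝ) ≤ F p q n := by exact_mod_cast (hmono n hn).1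
  have hF2 : (1 : ℝ) ≤ F p q (p * n) := by exact_mod_cast (hmono (p * n) hpn).1
  have h2 := up_raw hp hq n (Real.exp (ε * Real.log n + c) * F p q n) (fun m hm => (hmono n hn).2 m hm)
  have h3 := Real.log_le_log (by linarith) h2
  rw [Real.log_mul (by positivity) (by positivity), Real.log_mul (by positivity) (by positivity),
    Real.log_exp, Real.log_pow] at h3
  have h4 : (Nat.log q (p * n) : ℝ) * Real.log q ≤ Real.log p + Real.log n := by
    have h5 : q ^ Nat.log q (p * n) ≤ p * n :=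
      Nat.pow_log_le_self q (Nat.mul_ne_zero (by omega) (by omega))
    have h6 : ((q : ℝ)) ^ Nat.log q (p * n) ≤ p * n := by exact_mod_cast h5
    have h7 := Real.log_le_log (by positivity) h6
    rw [Real.log_pow, Real.log_mul hp0.ne' hn0.ne'] at h7
    exact h7
  have h5 : (Nat.log q (p * n) : ℝ) * Real.log 2 ≤
      Real.log 2 / Real.log q * (Real.log p + Real.log n) := by
    have h6 : (Nat.log q (p * n) : ℝ) * Real.log 2 =
        Real.log 2 / Real.log q * ((Nat.log q (p * n) : ℝ) * Real.log q) := by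
      field_simp
    rw [h6]
    exact mul_le_mul_of_nonneg_left h4 (by positivity)
  push_cast at h3
  nlinarith

theorem low {p q : ℕ} (hp : 2 ≤ p) (hq : 2 ≤ q) (hcop : Nat.Coprime q p) {ε θ : ℝ} (hε : 0 < ε)
    (hθ : 0 < θ) (hθ1 : θ < 1) :
    ∃ (c : ℝ) (n2 : ℕ), ∀ n, n2 ≤ n → Real.log (F p q n) +
      ((1 - θ) * (Real.log 2 / Real.log p) - ε) * Real.log n - c ≤ Real.log (F p q (q * n)) := by
  classical
  obtain ⟨c, n1, hc, hn1, hreg⟩ := reg hp hq hcop hε hθ
  obtain ⟨n0, hn0⟩ := growth hp hq hcop 1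
  have hlp : 0 < Real.log p := Real.log_pos (by exact_mod_cast (by omega : 1 < p))
  have hl2 : 0 < Real.log 2 := Real.log_pos (by norm_num)
  obtain ⟨n3, hn3⟩ := exists_log_ge (q * Real.log p / (1 - θ))
  refine ⟨c + q * Real.log 2, n0 + n1 + n3, fun n hn => ?_⟩
  have hlogn := hn3 n (by omega)
  rw [div_le_iff₀ (by linarith)] at hlogn
  have hn1' : (1 : ℝ) ≤ n := by exact_mod_cast (by omega : 1 ≤ n)
  have hln : 0 ≤ Real.log n := Real.log_nonneg hn1'
  have hp0 : (0 : ℝ) < p := by exact_mod_cast (by omega : 0 < p)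
  set I := ⌊(1 - θ) * Real.log n / Real.log p⌋₊ with hI
  have hI1 : (I : ℝ) * Real.log p ≤ (1 - θ) * Real.log n := by
    have h1 : (I : ℝ) ≤ (1 - θ) * Real.log n / Real.log p :=
      Nat.floor_le (div_nonneg (mul_nonneg (by linarith) hln) hlp.le)
    rwa [le_div_iff₀ hlp] at h1
  have hI2 : (1 - θ) * Real.log n ≤ ((I : ℝ) + 1) * Real.log p := by
    have h1 : (1 - θ) * Real.log n / Real.log p < (I : ℝ) + 1 := Nat.lt_floor_add_one _
    rw [div_lt_iff₀ hlp] at h1
    exact h1.le
  have hqI : q ≤ I := by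
    rw [hI]
    apply Nat.le_floor
    rw [le_div_iff₀ hlp]; linarith
  have hIn : I ≤ n := by
    have h1 : p ^ I ≤ n := by
      have : ((p : ℝ)) ^ I ≤ n := by
        rw [← Real.log_le_log_iff (by positivity) (by linarith), Real.log_pow]
        nlinarith
      exact_mod_cast this
    have h2 : I < p ^ I := Nat.lt_pow_self (by omega)
    omega
  have hqz : (0 : ℤ) < q := by exact_mod_cast (by omega : 0 < q)
  -- the choice of the low parts
  have hch : ∀ H : Finset ℕ, ∃ L ⊆ range (q - 1), ((rs p L : ℕ) : ZMod q) = -((rs p H : ℕ) : ZMod q) :=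
    fun H => cover hq hcop.symm _
  choose Lf hL1 hL2 using hch
  set P := (Ico (q - 1) I).powerset with hP
  have hdisj : ∀ H ∈ P, Disjoint (Lf H) H := by
    intro H hH
    rw [hP, mem_powerset] at hH
    rw [Finset.disjoint_left]
    intro j hj hj'
    have h1 := hL1 H hj
    have h2 := hH hj'
    simp only [mem_Ico, mem_range] at h1 h2
    omega
  have hsub : ∀ H ∈ P, Lf H ∪ H ⊆ range I := by
    intro H hH
    rw [hP, mem_powerset] at hH
    intro j hj
    rw [mem_union] at hj
    rw [mem_range]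
    rcases hj with hj | hj
    · have h1 := hL1 H hj
      simp only [mem_range] at h1
      omega
    · have h2 := hH hj
      simp only [mem_Ico] at h2
      omega
  have hinj : Set.InjOn (fun H => Lf H ∪ H) P := by
    intro H hH H' hH' heq
    simp only at heq
    rw [mem_coe] at hH hH'
    rw [hP, mem_powerset] at hH hH'
    have key : ∀ A A' : Finset ℕ, A ⊆ Ico (q - 1) I → Lf A ∪ A = Lf A' ∪ A' → A ⊆ A' := by
      intro A A' hA h j hj
      have h1 : j ∈ Lf A' ∪ A' := by rw [← h]; exact mem_union_right _ hj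
      rw [mem_union] at h1
      rcases h1 with h1 | h1
      · have h2 := hL1 A' h1
        have h3 := hA hj
        simp only [mem_Ico, mem_range] at h2 h3
        omega
      · exact h1
    exact Finset.Subset.antisymm (key H H' hH heq) (key H' H hH' heq.symm)
  have hrec := FZ_rec hq hp ((q * n : ℕ) : ℤ) (q * n) le_rfl
  rw [FZ_nat, F_swap q p] at hrec
  set g : Finset ℕ → ℕ := fun B => if (q : ℤ) ∣ ((q * n : ℕ) : ℤ) - rs p B then
    FZ q p ((((q * n : ℕ) : ℤ) - rs p B) / q) else 0 with hg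
  have hlow : ∀ H ∈ P, (F p q n : ℝ) ≤ Real.exp (ε * Real.log n + c) * (g (Lf H ∪ H) : ℝ) := by
    intro H hH
    have h1 : rs p (Lf H ∪ H) < p ^ I := (rs_mono (hsub H hH)).trans_lt (rs_range_lt hp I)
    have h2 : q ∣ rs p (Lf H ∪ H) := by
      rw [← ZMod.natCast_eq_zero_iff, rs_union (hdisj H hH)]
      push_cast
      rw [hL2]; ring
    obtain ⟨s, hs⟩ := h2
    have hsI : s ≤ p ^ I := by
      have : 1 * s ≤ q * s := Nat.mul_le_mul_right _ (by omega)
      omega
    obtain ⟨hsn, hF⟩ := hreg n (by omega) I hI1 s hsI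
    have h3 : g (Lf H ∪ H) = F p q (n - s) := by
      rw [hg]
      simp only
      have e : ((q * n : ℕ) : ℤ) - (rs p (Lf H ∪ H) : ℤ) = q * ((n - s : ℕ) : ℤ) := by
        rw [hs, Nat.cast_sub hsn]; push_cast; ring
      rw [e, if_pos (dvd_mul_right _ _), Int.mul_ediv_cancel_left _ hqz.ne', FZ_nat, F_swap q p]
    rw [h3]; exact hF
  have hsum : ∑ H ∈ P, g (Lf H ∪ H) ≤ F p q (q * n) := by
    rw [hrec, ← Finset.sum_image (f := g) hinj]
    apply Finset.sum_le_sum_of_subset
    intro B hB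
    rw [mem_image] at hB
    obtain ⟨H, hH, rfl⟩ := hB
    rw [mem_powerset]
    have hIqn : I ≤ q * n := by nlinarith
    exact (hsub H hH).trans (Finset.range_subset_range.2 hIqn)
  have hPc : P.card = 2 ^ (I - (q - 1)) := by rw [hP, card_powerset, Nat.card_Ico]
  have hmain : (2 : ℝ) ^ (I - (q - 1)) * F p q n ≤ Real.exp (ε * Real.log n + c) * F p q (q * n) := by
    have h1 : ∑ _H ∈ P, (F p q n : ℝ) ≤ ∑ H ∈ P, Real.exp (ε * Real.log n + c) * (g (Lf H ∪ H) : ℝ) :=
      Finset.sum_le_sum hlow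
    rw [Finset.sum_const, nsmul_eq_mul, hPc, ← Finset.mul_sum] at h1
    push_cast at h1
    refine h1.trans ?_
    apply mul_le_mul_of_nonneg_left _ (Real.exp_pos _).le
    exact_mod_cast hsum
  have hF1 : (1 : ℝ) ≤ F p q n := by
    have := hn0 n (by omega); exact_mod_cast (by omega : 1 ≤ F p q n)
  have hF2 : (1 : ℝ) ≤ F p q (q * n) := by
    have := hn0 (q * n) (by nlinarith); exact_mod_cast (by omega : 1 ≤ F p q (q * n))
  have h3 := Real.log_le_log (by positivity) hmain
  rw [Real.log_mul (by positivity) (by positivity), Real.log_mul (by positivity) (by positivity),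
    Real.log_exp, Real.log_pow, Nat.cast_sub (by omega), Nat.cast_sub (by omega)] at h3
  push_cast at h3
  have h4 : (1 - θ) * (Real.log 2 / Real.log p) * Real.log n ≤ ((I : ℝ) + 1) * Real.log 2 := by
    have h5 : (1 - θ) * (Real.log 2 / Real.log p) * Real.log n =
        Real.log 2 / Real.log p * ((1 - θ) * Real.log n) := by ring
    have h6 : Real.log 2 / Real.log p * (((I : ℝ) + 1) * Real.log p) = ((I : ℝ) + 1) * Real.log 2 := by
      field_simp
    rw [h5, ← h6]
    exact mul_le_mul_of_nonneg_left hI2 (by positivity)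
  nlinarith

theorem up_pow {p q : ℕ} (hp : 2 ≤ p) (hq : 2 ≤ q) (hcop : Nat.Coprime q p) {ε : ℝ} (hε : 0 < ε)
    (a : ℕ) :
    ∃ (c : ℝ) (n2 : ℕ), ∀ n, n2 ≤ n → Real.log (F p q (p ^ a * n)) ≤
      Real.log (F p q n) + a * (Real.log 2 / Real.log q + ε) * Real.log n + c := by
  obtain ⟨c1, n1, h1⟩ := up hp hq hcop hε
  induction a with
  | zero => exact ⟨0, 0, fun n _ => by simp⟩
  | succ a ih =>
    obtain ⟨c2, n2, h2⟩ := ih
    refine ⟨c2 + (Real.log 2 / Real.log q + ε) * (a * Real.log p) + c1, n1 + n2 + 1, fun n hn => ?_⟩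
    have hpa : 1 ≤ p ^ a := Nat.one_le_pow _ _ (by omega)
    have h3 := h1 (p ^ a * n) (by nlinarith)
    have h4 := h2 n (by omega)
    have e : p ^ (a + 1) * n = p * (p ^ a * n) := by ring
    rw [e]
    have hn0 : (0 : ℝ) < n := by exact_mod_cast (by omega : 0 < n)
    have hp0 : (0 : ℝ) < p := by exact_mod_cast (by omega : 0 < p)
    have e2 : Real.log ((p ^ a * n : ℕ) : ℝ) = a * Real.log p + Real.log n := by
      push_cast
      rw [Real.log_mul (by positivity) hn0.ne', Real.log_pow]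
    rw [e2] at h3
    push_cast
    nlinarith

theorem low_pow {p q : ℕ} (hp : 2 ≤ p) (hq : 2 ≤ q) (hcop : Nat.Coprime q p) {ε θ : ℝ} (hε : 0 < ε)
    (hθ : 0 < θ) (hθ1 : θ < 1) (b : ℕ) :
    ∃ (c : ℝ) (n2 : ℕ), ∀ n, n2 ≤ n → Real.log (F p q n) +
      b * ((1 - θ) * (Real.log 2 / Real.log p) - ε) * Real.log n - c ≤
        Real.log (F p q (q ^ b * n)) := by
  obtain ⟨c1, n1, h1⟩ := low hp hq hcop hε hθ hθ1
  induction b with
  | zero => exact ⟨0, 0, fun n _ => by simp⟩
  | succ b ih =>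
    obtain ⟨c2, n2, h2⟩ := ih
    refine ⟨c2 - ((1 - θ) * (Real.log 2 / Real.log p) - ε) * (b * Real.log q) + c1, n1 + n2 + 1,
      fun n hn => ?_⟩
    have hpa : 1 ≤ q ^ b := Nat.one_le_pow _ _ (by omega)
    have h3 := h1 (q ^ b * n) (by nlinarith)
    have h4 := h2 n (by omega)
    have e : q ^ (b + 1) * n = q * (q ^ b * n) := by ring
    rw [e]
    have hn0 : (0 : ℝ) < n := by exact_mod_cast (by omega : 0 < n)
    have hq0 : (0 : ℝ) < q := by exact_mod_cast (by omega : 0 < q)
    have e2 : Real.log ((q ^ b * n : ℕ) : ℝ) = b * Real.log q + Real.log n := by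
      push_cast
      rw [Real.log_mul (by positivity) hn0.ne', Real.log_pow]
    rw [e2] at h3
    push_cast
    nlinarith

theorem dilation {p q : ℕ} (hp : 2 ≤ p) (hq : 2 ≤ q) (hcop : Nat.Coprime q p) (l : ℕ) (hl : 1 ≤ l)
    {ε0 : ℝ} (hε0 : 0 < ε0) :
    ∃ (C : ℝ) (n0 : ℕ), ∀ n, n0 ≤ n → (F p q (l * n) : ℝ) ≤
      C * (n : ℝ) ^ (Real.log 2 * Real.log l / (Real.log p * Real.log q) + ε0) * F p q n := by
  have hlp : 0 < Real.log p := Real.log_pos (by exact_mod_cast (by omega : 1 < p))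
  have hlq : 0 < Real.log q := Real.log_pos (by exact_mod_cast (by omega : 1 < q))
  have hl2 : 0 < Real.log 2 := Real.log_pos (by norm_num)
  have hp0 : (0 : ℝ) < p := by exact_mod_cast (by omega : 0 < p)
  have hq0 : (0 : ℝ) < q := by exact_mod_cast (by omega : 0 < q)
  have hl0 : (0 : ℝ) < l := by exact_mod_cast (by omega : 0 < l)
  have hll : 0 ≤ Real.log l := Real.log_nonneg (by exact_mod_cast hl)
  set g : ℝ := Real.log 2 / (Real.log p * Real.log q) with hg
  have hg0 : 0 < g := by rw [hg]; positivity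
  set ρ : ℝ := Real.exp (ε0 / (4 * g)) with hρ
  have hρ1 : 1 < ρ := by rw [hρ]; exact Real.one_lt_exp_iff.2 (by positivity)
  obtain ⟨j, t, hjt1, hjt2⟩ := ratio hq hp hcop.symm (a := (l : ℝ)) (b := (l : ℝ) * ρ) hl0
    (by nlinarith)
  have hjt1' : l * q ^ t < p ^ j := by exact_mod_cast hjt1
  have hlog1 : Real.log l + t * Real.log q ≤ j * Real.log p := by
    have h := Real.log_le_log (by positivity) hjt1.le
    rw [Real.log_mul hl0.ne' (by positivity), Real.log_pow, Real.log_pow] at h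
    exact h
  have hlog2 : j * Real.log p ≤ Real.log l + ε0 / (4 * g) + t * Real.log q := by
    have h := Real.log_le_log (by positivity) hjt2.le
    rw [Real.log_mul (by positivity) (by positivity), Real.log_mul hl0.ne' (by positivity),
      Real.log_pow, Real.log_pow, hρ, Real.log_exp] at h
    exact h
  set γp : ℝ := Real.log 2 / Real.log p with hγp
  set γq : ℝ := Real.log 2 / Real.log q with hγq
  have hγp0 : 0 < γp := by rw [hγp]; positivity
  have hgp : g * Real.log q = γp := by rw [hg, hγp]; field_simp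
  have hgq : g * Real.log p = γq := by rw [hg, hγq]; field_simp
  set ε : ℝ := ε0 / (8 * (j + t + 2)) with hε
  have hjt0 : (0 : ℝ) < j + t + 2 := by positivity
  have hε' : 0 < ε := by rw [hε]; positivity
  set θ : ℝ := min (1 / 2) (ε0 / (8 * (t + 1) * γp)) with hθ
  have hθ0 : 0 < θ := by rw [hθ]; apply lt_min <;> positivity
  have hθ1 : θ < 1 := lt_of_le_of_lt (min_le_left _ _) (by norm_num)
  have hθ2 : θ * ((t + 1) * γp) ≤ ε0 / 8 := by
    have h1 : θ ≤ ε0 / (8 * (t + 1) * γp) := min_le_right _ _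
    rw [le_div_iff₀ (by positivity)] at h1
    linarith
  obtain ⟨c1, n1, hc1, hn1, hmono⟩ := near_mono hp hq hcop hε'
  obtain ⟨c2, n2, hup⟩ := up_pow hp hq hcop hε' j
  obtain ⟨c3, n3, hlow⟩ := low_pow hp hq hcop hε' hθ0 hθ1 t
  set Q := q ^ t with hQ
  have hQ1 : 1 ≤ Q := Nat.one_le_pow _ _ (by omega)
  refine ⟨Real.exp (ε * (j * Real.log p) + c1 + c2 + c3 + c1),
    (n1 + n2 + n3 + 1 + p ^ j) * Q, fun n hn => ?_⟩
  set m := n / Q with hm
  have hm1 : n1 + n2 + n3 + 1 + p ^ j ≤ m := by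
    rw [hm, Nat.le_div_iff_mul_le (by omega)]; exact hn
  have hmQ : Q * m ≤ n := Nat.mul_div_le n Q
  have hmn : m ≤ n := by nlinarith
  have hlm : l * n ≤ p ^ j * m := by
    have h1 : n < Q * m + Q := by
      have := Nat.div_add_mod n Q
      have := Nat.mod_lt n (show 0 < Q by omega)
      rw [← hm] at *
      omega
    have h2 : l * Q + 1 ≤ p ^ j := hjt1'
    have h3 : (l * Q + 1) * m ≤ p ^ j * m := Nat.mul_le_mul_right _ h2
    have h4 : l * n ≤ l * (Q * m + Q) := Nat.mul_le_mul_left _ h1.le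
    have h5 : l * Q ≤ m := by omega
    nlinarith
  have hpj1 : 1 ≤ p ^ j := Nat.one_le_pow _ _ (by omega)
  have hN1 : n1 ≤ p ^ j * m := by nlinarith
  have hln1 : n1 ≤ l * n := by nlinarith
  have hQm1 : n1 ≤ Q * m := by nlinarith
  have hn0 : (0 : ℝ) < n := by exact_mod_cast (by omega : 0 < n)
  have hm0 : (0 : ℝ) < m := by exact_mod_cast (by omega : 0 < m)
  have hn1' : (1 : ℝ) ≤ n := by exact_mod_cast (by omega : 1 ≤ n)
  have hlnn : 0 ≤ Real.log n := Real.log_nonneg hn1'
  have hlmn : Real.log m ≤ Real.log n := Real.log_le_log hm0 (by exact_mod_cast hmn)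
  have hFn : (1 : ℝ) ≤ F p q n := by exact_mod_cast (hmono n (by omega)).1
  have hFln : (1 : ℝ) ≤ F p q (l * n) := by exact_mod_cast (hmono (l * n) hln1).1
  have hFN : (1 : ℝ) ≤ F p q (p ^ j * m) := by exact_mod_cast (hmono (p ^ j * m) hN1).1
  have hFQ : (1 : ℝ) ≤ F p q (Q * m) := by exact_mod_cast (hmono (Q * m) hQm1).1
  have s1 : Real.log (F p q (l * n)) ≤ ε * (j * Real.log p + Real.log n) + c1 +
      Real.log (F p q (p ^ j * m)) := by
    have h1 := (hmono (p ^ j * m) hN1).2 (l * n) hlm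
    have h2 := Real.log_le_log (by linarith) h1
    rw [Real.log_mul (by positivity) (by positivity), Real.log_exp] at h2
    have h3 : Real.log ((p ^ j * m : ℕ) : ℝ) ≤ j * Real.log p + Real.log n := by
      push_cast
      rw [Real.log_mul (by positivity) hm0.ne', Real.log_pow]
      linarith
    have h4 := mul_le_mul_of_nonneg_left h3 hε'.le
    linarith
  have s2 := hup m (by omega)
  have s3 := hlow m (by omega)
  have s4 : Real.log (F p q (Q * m)) ≤ ε * Real.log n + c1 + Real.log (F p q n) := by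
    have h1 := (hmono n (by omega)).2 (Q * m) hmQ
    have h2 := Real.log_le_log (by linarith) h1
    rw [Real.log_mul (by positivity) (by positivity), Real.log_exp] at h2
    linarith
  rw [← hγq] at s2
  rw [← hγp] at s3
  set e : ℝ := j * (γq + ε) - t * ((1 - θ) * γp - ε) with he
  have he1 : e = g * (j * Real.log p - t * Real.log q) + (j + t) * ε + θ * (t * γp) := by
    rw [he, ← hgp, ← hgq]; ring
  have he0 : 0 ≤ e := by
    rw [he1]
    have : 0 ≤ g * (j * Real.log p - t * Real.log q) := mul_nonneg hg0.le (by linarith)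
    have : 0 ≤ (j + t) * ε := by positivity
    have : 0 ≤ θ * (t * γp) := by positivity
    linarith
  have he2 : e + 2 * ε ≤ Real.log 2 * Real.log l / (Real.log p * Real.log q) + ε0 := by
    have h1 : g * (j * Real.log p - t * Real.log q) ≤ g * (Real.log l + ε0 / (4 * g)) :=
      mul_le_mul_of_nonneg_left (by linarith) hg0.le
    have h2 : g * (Real.log l + ε0 / (4 * g)) =
        Real.log 2 * Real.log l / (Real.log p * Real.log q) + ε0 / 4 := by
      rw [mul_add]
      congr 1
      · rw [hg]; ring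
      · field_simp
    have h3 : (j + t + 2) * ε = ε0 / 8 := by rw [hε]; field_simp
    have h4 : θ * (t * γp) ≤ θ * ((t + 1) * γp) :=
      mul_le_mul_of_nonneg_left (by nlinarith) hθ0.le
    rw [he1]
    nlinarith
  have h5 : e * Real.log m ≤ e * Real.log n := mul_le_mul_of_nonneg_left hlmn he0
  have h6 : (e + 2 * ε) * Real.log n ≤
      (Real.log 2 * Real.log l / (Real.log p * Real.log q) + ε0) * Real.log n :=
    mul_le_mul_of_nonneg_right he2 hlnn
  have hfin : Real.log (F p q (l * n)) ≤ (ε * (j * Real.log p) + c1 + c2 + c3 + c1) +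
      Real.log n * (Real.log 2 * Real.log l / (Real.log p * Real.log q) + ε0) +
        Real.log (F p q n) := by
    have e5 : e * Real.log m = j * (γq + ε) * Real.log m - t * ((1 - θ) * γp - ε) * Real.log m := by
      rw [he]; ring
    nlinarith
  have h7 := Real.exp_le_exp.2 hfin
  rw [Real.exp_add, Real.exp_add, Real.exp_log (by linarith), Real.exp_log (by linarith)] at h7
  rw [Real.rpow_def_of_pos hn0]
  exact h7

end Pool.Agent.X34.PQ
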