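import Pool.Agent.X34.PQ.Birch
import Pool.Agent.H397R2.LogDense

/-!
Birch's theorem with bounded exponents of `q`, and the growth of `F`.
-/

namespace Pool.Agent.X34.PQ

open Finset

theorem irrational_log {p q : ℕ} (hp : 2 ≤ p) (hq : 2 ≤ q) (hcop : Nat.Coprime q p) :
    Irrational (Real.log p / Real.log q) := by
  rintro ⟨r, hr⟩
  have hlq : 0 < Real.log q := Real.log_pos (by exact_mod_cast (by omega : 1 < q))
  have hlp : 0 < Real.log p := Real.log_pos (by exact_mod_cast (by omega : 1 < p))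
  have hr0 : (0 : ℝ) < r := by rw [hr]; positivity
  have hr0' : 0 < r := by exact_mod_cast hr0
  have hnum : 0 < r.num := Rat.num_pos.mpr hr0'
  obtain ⟨b, hb⟩ : ∃ b : ℕ, r.num = b := ⟨r.num.toNat, by omega⟩
  have h1 : (r.den : ℝ) * Real.log p = b * Real.log q := by
    have h2 : (r : ℝ) = (b : ℝ) / r.den := by
      rw [Rat.cast_def, hb]; push_cast; rfl
    have hden : (r.den : ℝ) ≠ 0 := by exact_mod_cast r.den_ne_zero
    rw [h2, div_eq_div_iff hden hlq.ne'] at hr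
    linarith
  have h3 : Real.log ((p : ℝ) ^ r.den) = Real.log ((q : ℝ) ^ b) := by
    rw [Real.log_pow, Real.log_pow, h1]
  have h4 : (p : ℝ) ^ r.den = (q : ℝ) ^ b := by
    apply Real.log_injOn_pos _ _ h3
    · exact Set.mem_Ioi.mpr (pow_pos (by exact_mod_cast (by omega : 0 < p)) _)
    · exact Set.mem_Ioi.mpr (pow_pos (by exact_mod_cast (by omega : 0 < q)) _)
  have h5 : p ^ r.den = q ^ b := by exact_mod_cast h4
  have h6 : Nat.Coprime (q ^ b) (p ^ r.den) := Nat.Coprime.pow _ _ hcop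
  rw [h5, Nat.coprime_self] at h6
  rw [h6] at h5
  have h7 : 2 ≤ p ^ r.den := by
    calc 2 ≤ p := hp
      _ = p ^ 1 := (pow_one p).symm
      _ ≤ p ^ r.den := Nat.pow_le_pow_right (by omega) r.den_pos
  omega

theorem ratio {p q : ℕ} (hp : 2 ≤ p) (hq : 2 ≤ q) (hcop : Nat.Coprime q p) {a b : ℝ}
    (ha : 0 < a) (hab : a < b) :
    ∃ j t : ℕ, a * (p : ℝ) ^ t < (q : ℝ) ^ j ∧ (q : ℝ) ^ j < b * (p : ℝ) ^ t := by
  have hlq : 0 < Real.log q := Real.log_pos (by exact_mod_cast (by omega : 1 < q))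
  have hlp : 0 < Real.log p := Real.log_pos (by exact_mod_cast (by omega : 1 < p))
  have hp0 : (0 : ℝ) < p := by exact_mod_cast (by omega : 0 < p)
  have hq0 : (0 : ℝ) < q := by exact_mod_cast (by omega : 0 < q)
  have hb : 0 < b := ha.trans hab
  obtain ⟨j, t, h1, h2⟩ := Pool.Agent.H397R2.exists_nat_sub_mul (div_pos hlp hlq)
    (irrational_log hp hq hcop)
    (show Real.log a / Real.log q < Real.log b / Real.log q by
      exact (div_lt_div_iff_of_pos_right hlq).mpr (Real.log_lt_log ha hab))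
  have e : ((j : ℝ) - t * (Real.log p / Real.log q)) =
      (j * Real.log q - t * Real.log p) / Real.log q := by
    field_simp
  rw [e, div_lt_div_iff_of_pos_right hlq] at h1 h2
  refine ⟨j, t, ?_, ?_⟩
  · rw [← Real.log_lt_log_iff (by positivity) (by positivity),
      Real.log_mul ha.ne' (by positivity), Real.log_pow, Real.log_pow]
    linarith
  · rw [← Real.log_lt_log_iff (by positivity) (by positivity),
      Real.log_mul hb.ne' (by positivity), Real.log_pow, Real.log_pow]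
    linarith

theorem dense {p q : ℕ} (hp : 2 ≤ p) (hq : 2 ≤ q) (hcop : Nat.Coprime q p) {η : ℝ} (hη : 0 < η) :
    ∃ K0 : ℕ, ∃ Y0 : ℝ, ∀ Y : ℝ, Y0 ≤ Y → ∃ i j : ℕ, j < K0 ∧ Y ≤ (p : ℝ) ^ i * (q : ℝ) ^ j ∧
      (p : ℝ) ^ i * (q : ℝ) ^ j ≤ (1 + η) * Y := by
  obtain ⟨j1, t, h1, h2⟩ := ratio hp hq hcop (a := 1) (b := 1 + η) one_pos (by linarith)
  rw [one_mul] at h1
  have hp0 : (0 : ℝ) < p := by exact_mod_cast (by omega : 0 < p)
  have hp1 : (1 : ℝ) < p := by exact_mod_cast (by omega : 1 < p)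
  have hpt : (0 : ℝ) < (p : ℝ) ^ t := by positivity
  set r : ℝ := (q : ℝ) ^ j1 / (p : ℝ) ^ t with hr
  have hr1 : 1 < r := by rw [hr, lt_div_iff₀ hpt]; linarith
  have hr2 : r < 1 + η := by rw [hr, div_lt_iff₀ hpt]; linarith
  obtain ⟨m0, hm0⟩ := pow_unbounded_of_one_lt (p : ℝ) hr1
  refine ⟨m0 * j1 + 1, (p : ℝ) ^ (m0 * t + 1) + 1, fun Y hY => ?_⟩
  have hpm : (1 : ℝ) ≤ (p : ℝ) ^ (m0 * t + 1) := one_le_pow₀ hp1.le
  have hY1 : 1 ≤ Y := by linarith
  have hfl : p ^ (m0 * t + 1) ≤ ⌊Y⌋₊ := by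
    apply Nat.le_floor
    push_cast; linarith
  set i0 := Nat.log p ⌊Y⌋₊ with hi0
  have hfl0 : ⌊Y⌋₊ ≠ 0 := by
    have : 1 ≤ p ^ (m0 * t + 1) := Nat.one_le_pow _ _ (by omega)
    omega
  have hA : (p : ℝ) ^ i0 ≤ Y := by
    have h3 : p ^ i0 ≤ ⌊Y⌋₊ := Nat.pow_log_le_self p hfl0
    have h4 : ((p ^ i0 : ℕ) : ℝ) ≤ ⌊Y⌋₊ := by exact_mod_cast h3
    push_cast at h4
    exact h4.trans (Nat.floor_le (by linarith))
  have hB : Y < (p : ℝ) ^ (i0 + 1) := by
    have h3 : ⌊Y⌋₊ < p ^ (i0 + 1) := Nat.lt_pow_succ_log_self (by omega) _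
    have h4 : Y < (⌊Y⌋₊ : ℝ) + 1 := Nat.lt_floor_add_one _
    have h5 : ((⌊Y⌋₊ + 1 : ℕ) : ℝ) ≤ ((p ^ (i0 + 1) : ℕ) : ℝ) := by exact_mod_cast h3
    push_cast at h5
    linarith
  have hi0t : m0 * t ≤ i0 := by
    have : m0 * t + 1 ≤ i0 := by
      rw [hi0]
      exact (Nat.le_log_iff_pow_le (by omega) hfl0).2 hfl
    omega
  have hex : ∃ m : ℕ, Y ≤ (p : ℝ) ^ i0 * r ^ m := by
    refine ⟨m0, hB.le.trans ?_⟩
    rw [pow_succ]
    exact mul_le_mul_of_nonneg_left hm0.le (by positivity)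
  classical
  have hm := Nat.find_spec hex
  set m := Nat.find hex with hmdef
  have hmm0 : m ≤ m0 := by
    apply Nat.find_min' hex
    refine hB.le.trans ?_
    rw [pow_succ]
    exact mul_le_mul_of_nonneg_left hm0.le (by positivity)
  have hmt : m * t ≤ i0 := (Nat.mul_le_mul_right t hmm0).trans hi0t
  have heq : (p : ℝ) ^ (i0 - m * t) * (q : ℝ) ^ (m * j1) = (p : ℝ) ^ i0 * r ^ m := by
    rw [hr, div_pow, ← pow_mul, ← pow_mul]
    have : (p : ℝ) ^ i0 = (p : ℝ) ^ (i0 - m * t) * (p : ℝ) ^ (m * t) := by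
      rw [← pow_add]; congr 1; omega
    rw [this, mul_comm j1 m, mul_comm t m]
    have hne : (p : ℝ) ^ (m * t) ≠ 0 := by positivity
    field_simp
  refine ⟨i0 - m * t, m * j1, ?_, ?_, ?_⟩
  · have := Nat.mul_le_mul_right j1 hmm0
    omega
  · rw [heq]; exact hm
  · rw [heq]
    rcases Nat.eq_zero_or_pos m with h0 | h0
    · rw [h0, pow_zero, mul_one]; nlinarith
    · have hlt : ¬ (Y ≤ (p : ℝ) ^ i0 * r ^ (m - 1)) := Nat.find_min hex (by omega)
      push Not at hlt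
      have e : r ^ m = r ^ (m - 1) * r := by
        rw [← pow_succ]; congr 1; omega
      rw [e, ← mul_assoc]
      have hr0 : 0 < r := by linarith
      calc (p : ℝ) ^ i0 * r ^ (m - 1) * r ≤ Y * r := mul_le_mul_of_nonneg_right hlt.le hr0.le
        _ ≤ Y * (1 + η) := mul_le_mul_of_nonneg_left hr2.le (by linarith)
        _ = (1 + η) * Y := by ring

/-- Birch's theorem with bounded exponents of `q` (Davenport) -/
theorem birch {p q : ℕ} (hp : 2 ≤ p) (hq : 2 ≤ q) (hcop : Nat.Coprime q p) :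
    ∃ K n0 : ℕ, ∀ n, n0 ≤ n → ∃ T : Finset (ℕ × ℕ), (∀ x ∈ T, x.2 < K) ∧ wt p q T = n := by
  obtain ⟨a, N, haN⟩ := scaled hp hq hcop
  have hp0 : (0 : ℝ) < p := by exact_mod_cast (by omega : 0 < p)
  have hq0 : (0 : ℝ) < q := by exact_mod_cast (by omega : 0 < q)
  set η : ℝ := 1 / (2 * p * (a + 1)) with hη
  have hη0 : 0 < η := by rw [hη]; positivity
  obtain ⟨K0, Y0, hY0⟩ := dense hp hq hcop hη0
  obtain ⟨n1, hn1⟩ := exists_nat_ge (2 * (q : ℝ) ^ N * Y0)
  refine ⟨N + K0, n1 + 2 * (a + 1), fun n hn => ?_⟩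
  obtain ⟨k, hk1, hk2⟩ := exists_scale (C := 2 * (a + 1)) hp (by omega)
    (show 2 * (a + 1) ≤ n by omega)
  have hk1' : (2 : ℝ) * ((a : ℝ) + 1) * (p : ℝ) ^ k ≤ n := by exact_mod_cast hk1
  have hk2' : (n : ℝ) < 2 * ((a : ℝ) + 1) * (p : ℝ) ^ (k + 1) := by exact_mod_cast hk2
  set Y : ℝ := (n - (p : ℝ) ^ k * (a + 1)) / (q : ℝ) ^ N with hY
  have hqN : (0 : ℝ) < (q : ℝ) ^ N := by positivity
  have hYge : Y0 ≤ Y := by
    rw [hY, le_div_iff₀ hqN]
    have h1 : (n1 : ℝ) ≤ n := by exact_mod_cast (by omega : n1 ≤ n)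
    nlinarith
  obtain ⟨i, j, hj, h1, h2⟩ := hY0 Y hYge
  have hYq : Y * (q : ℝ) ^ N = n - (p : ℝ) ^ k * (a + 1) := by
    rw [hY, div_mul_cancel₀ _ hqN.ne']
  have hs : ((p ^ i * q ^ (j + N) : ℕ) : ℝ) = (p : ℝ) ^ i * (q : ℝ) ^ j * (q : ℝ) ^ N := by
    push_cast; rw [pow_add]; ring
  have h3 : (n : ℝ) - (p : ℝ) ^ k * (a + 1) ≤ ((p ^ i * q ^ (j + N) : ℕ) : ℝ) := by
    rw [hs, ← hYq]
    exact mul_le_mul_of_nonneg_right h1 hqN.le
  have h4 : ((p ^ i * q ^ (j + N) : ℕ) : ℝ) ≤ n - (p : ℝ) ^ k * a := by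
    rw [hs]
    have h5 : (p : ℝ) ^ i * (q : ℝ) ^ j * (q : ℝ) ^ N ≤ (1 + η) * Y * (q : ℝ) ^ N :=
      mul_le_mul_of_nonneg_right h2 hqN.le
    rw [mul_assoc (1 + η), hYq] at h5
    have h6 : η * n ≤ (p : ℝ) ^ k := by
      have : η * n ≤ η * (2 * ((a : ℝ) + 1) * (p : ℝ) ^ (k + 1)) :=
        mul_le_mul_of_nonneg_left hk2'.le hη0.le
      have e : η * (2 * ((a : ℝ) + 1) * (p : ℝ) ^ (k + 1)) = (p : ℝ) ^ k := by
        rw [hη, pow_succ]; field_simp
      linarith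
    have h7 : 0 ≤ η * ((p : ℝ) ^ k * (a + 1)) := by positivity
    nlinarith
  set s := p ^ i * q ^ (j + N) with hsdef
  have hsn : s ≤ n := by
    have : (s : ℝ) ≤ n := by
      have : 0 ≤ (p : ℝ) ^ k * a := by positivity
      linarith
    exact_mod_cast this
  obtain ⟨T, hT1, hT2⟩ := haN k (n - s) (by
      have : ((p ^ k * a : ℕ) : ℝ) ≤ ((n - s : ℕ) : ℝ) := by
        rw [Nat.cast_sub hsn]; push_cast; linarith
      exact_mod_cast this) (by
      have : ((n - s : ℕ) : ℝ) ≤ ((p ^ k * (a + 1) : ℕ) : ℝ) := by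
        rw [Nat.cast_sub hsn]; push_cast; linarith
      exact_mod_cast this)
  have hnot : ((i, j + N) : ℕ × ℕ) ∉ T := by
    intro h
    have := hT1 _ h
    simp only at this; omega
  refine ⟨insert (i, j + N) T, ?_, ?_⟩
  · intro x hx
    rw [mem_insert] at hx
    rcases hx with rfl | hx
    · simp only; omega
    · have := hT1 x hx; omega
  · unfold wt
    rw [Finset.sum_insert hnot]
    change s + wt p q T = n
    omega

theorem free_lower {p q : ℕ} (hp : 2 ≤ p) (hq : 2 ≤ q) {K n0 : ℕ}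
    (hB : ∀ n, n0 ≤ n → ∃ T : Finset (ℕ × ℕ), (∀ x ∈ T, x.2 < K) ∧ wt p q T = n)
    (V : Finset (ℕ × ℕ)) (hV : ∀ x ∈ V, K ≤ x.2) (n : ℕ) (hn : n0 + wt p q V ≤ n) :
    2 ^ V.card ≤ F p q n := by
  classical
  unfold F
  rw [Set.ncard_eq_toFinset_card _ (finite_reps hp hq n), ← card_powerset]
  have hB' : ∀ n, ∃ T : Finset (ℕ × ℕ), n0 ≤ n → (∀ x ∈ T, x.2 < K) ∧ wt p q T = n := by
    intro n
    by_cases h : n0 ≤ n
    · obtain ⟨T, hT⟩ := hB n h; exact ⟨T, fun _ => hT⟩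
    · exact ⟨∅, fun h' => absurd h' h⟩
  choose R hR using hB'
  have hge : ∀ S ⊆ V, n0 ≤ n - wt p q S := by
    intro S hS
    have := wt_mono (p := p) (q := q) hS
    omega
  apply Finset.card_le_card_of_injOn (fun S => S ∪ R (n - wt p q S))
  · intro S hS
    rw [mem_coe, mem_powerset] at hS
    have h1 := hR _ (hge S hS)
    rw [mem_coe, Set.Finite.mem_toFinset]
    change wt p q _ = n
    rw [wt_union, h1.2]
    · have := wt_mono (p := p) (q := q) hS
      omega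
    · rw [Finset.disjoint_left]
      intro x hx hx'
      have := h1.1 x hx'
      have := hV x (hS hx)
      omega
  · intro S hS S' hS' heq
    rw [mem_coe, mem_powerset] at hS hS'
    simp only at heq
    have h1 := hR _ (hge S hS)
    have h2 := hR _ (hge S' hS')
    ext x
    constructor
    · intro hx
      have : x ∈ S' ∪ R (n - wt p q S') := by rw [← heq]; exact mem_union_left _ hx
      rw [mem_union] at this
      rcases this with h | h
      · exact h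
      · have := h2.1 x h; have := hV x (hS hx); omega
    · intro hx
      have : x ∈ S ∪ R (n - wt p q S) := by rw [heq]; exact mem_union_left _ hx
      rw [mem_union] at this
      rcases this with h | h
      · exact h
      · have := h1.1 x h; have := hV x (hS' hx); omega

theorem rs_range_lt {q : ℕ} (hq : 2 ≤ q) (b : ℕ) : rs q (range b) < q ^ b := by
  unfold rs
  induction b with
  | zero => simp
  | succ b ih =>
    rw [Finset.sum_range_succ, pow_succ]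
    have : q ^ b * 2 ≤ q ^ b * q := Nat.mul_le_mul_left _ hq
    omega

theorem wt_rect {p q : ℕ} (hp : 2 ≤ p) (hq : 2 ≤ q) (a b : ℕ) :
    wt p q (range b ×ˢ range a) ≤ p ^ b * q ^ a := by
  unfold wt w
  rw [Finset.sum_product]
  have : ∑ x ∈ range b, ∑ y ∈ range a, p ^ (x, y).1 * q ^ (x, y).2 =
      rs p (range b) * rs q (range a) := by
    unfold rs
    rw [Finset.sum_mul_sum]
  rw [this]
  exact Nat.mul_le_mul (rs_range_lt hp b).le (rs_range_lt hq a).le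

/-- superlinear growth -/
theorem growth {p q : ℕ} (hp : 2 ≤ p) (hq : 2 ≤ q) (hcop : Nat.Coprime q p) (C : ℕ) :
    ∃ n1 : ℕ, ∀ n, n1 ≤ n → C * (n + 1) ≤ F p q n := by
  obtain ⟨K, n0, hB⟩ := birch hp hq hcop
  set Q := 2 * q ^ (K + 2 * p) with hQ
  have hQ1 : 1 ≤ Q := by
    have : 0 < Q := by rw [hQ]; positivity
    omega
  set b0 := C * Q * p with hb0
  refine ⟨2 * n0 + Q * p ^ b0, fun n hn => ?_⟩
  have hpb0 : 1 ≤ p ^ b0 := Nat.one_le_pow _ _ (by omega)
  have hQn : Q ≤ n := by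
    have : Q * 1 ≤ Q * p ^ b0 := Nat.mul_le_mul_left _ hpb0
    omega
  obtain ⟨b, hb1, hb2⟩ := exists_scale hp hQ1 hQn
  have hbb0 : b0 ≤ b := by
    by_contra hcon
    have : p ^ (b + 1) ≤ p ^ b0 := Nat.pow_le_pow_right (by omega) (by omega)
    have := Nat.mul_le_mul_left Q this
    omega
  have h1 : 2 ^ (range b ×ˢ Ico K (K + 2 * p)).card ≤ F p q n := by
    apply free_lower hp hq hB
    · intro x hx
      simp only [mem_product, mem_Ico] at hx
      omega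
    · have h2 : wt p q (range b ×ˢ Ico K (K + 2 * p)) ≤ p ^ b * q ^ (K + 2 * p) := by
        refine le_trans (wt_mono ?_) (wt_rect hp hq (K + 2 * p) b)
        intro x hx
        simp only [mem_product, mem_Ico, mem_range] at hx ⊢
        omega
      have e : Q * p ^ b = 2 * (p ^ b * q ^ (K + 2 * p)) := by rw [hQ]; ring
      have : 2 * n0 ≤ n := by omega
      omega
  rw [card_product, card_range, Nat.card_Ico] at h1
  have e2 : K + 2 * p - K = 2 * p := by omega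
  rw [e2] at h1
  have h3 : C * (n + 1) ≤ C * (Q * p ^ (b + 1)) := Nat.mul_le_mul_left _ hb2
  have h4 : C * (Q * p ^ (b + 1)) = (C * Q * p) * p ^ b := by rw [pow_succ]; ring
  have h5 : p ^ b ≤ 2 ^ (p * b) := by
    rw [pow_mul]
    exact Nat.pow_le_pow_left (Nat.lt_two_pow_self).le _
  have h6 : C * Q * p ≤ 2 ^ (p * b) := by
    calc C * Q * p ≤ b := by rw [← hb0]; exact hbb0
      _ ≤ 2 ^ b := (Nat.lt_two_pow_self).le
      _ ≤ 2 ^ (p * b) := Nat.pow_le_pow_right (by norm_num) (Nat.le_mul_of_pos_left _ (by omega))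
  calc C * (n + 1) ≤ C * (Q * p ^ (b + 1)) := h3
    _ = (C * Q * p) * p ^ b := h4
    _ ≤ 2 ^ (p * b) * 2 ^ (p * b) := Nat.mul_le_mul h6 h5
    _ = 2 ^ (b * (2 * p)) := by rw [← pow_add]; congr 1; ring
    _ ≤ F p q n := h1

end Pool.Agent.X34.PQ
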