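import Pool.Agent.X34.PQ.Lower

/-!
Near monotonicity of `F`.
-/

namespace Pool.Agent.X34.PQ

open Finset

theorem rs_injective {q : ℕ} (hq : 2 ≤ q) : Function.Injective (rs q) :=
  Finset.geomSum_injective hq

theorem card_rs_le {q : ℕ} (hq : 2 ≤ q) (S : Finset (Finset ℕ)) (M : ℕ) :
    (S.filter (fun B => rs q B ≤ M)).card ≤ M + 1 := by
  rw [← card_range (M + 1)]
  apply Finset.card_le_card_of_injOn (rs q)
  · intro B hB
    rw [mem_coe, mem_filter] at hB
    rw [mem_coe, mem_range]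
    omega
  · exact (rs_injective hq).injOn

theorem card_rs_le' {q : ℕ} (hq : 2 ≤ q) (S : Finset (Finset ℕ)) (M : ℕ) :
    (S.filter (fun B => rs q B ≤ M)).card ≤ 2 ^ (Nat.log q M + 1) := by
  have h1 : S.filter (fun B => rs q B ≤ M) ⊆ (range (Nat.log q M + 1)).powerset := by
    intro B hB
    rw [mem_filter] at hB
    rw [mem_powerset]
    intro j hj
    rw [mem_range]
    have h2 : q ^ j ≤ rs q B := by
      unfold rs
      exact Finset.single_le_sum (f := fun j => q ^ j) (fun _ _ => Nat.zero_le _) hj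
    have h3 : q ^ j ≤ M := h2.trans hB.2
    have h4 : M ≠ 0 := by
      have : 0 < q ^ j := by positivity
      omega
    have := (Nat.le_log_iff_pow_le (by omega) h4).2 h3
    omega
  have := Finset.card_le_card h1
  rwa [card_powerset, card_range] at this

/-- indicator -/
noncomputable def ind (z : ℤ) : ℝ := if 0 ≤ z then 1 else 0

theorem ind_nonneg (z : ℤ) : 0 ≤ ind z := by unfold ind; split_ifs <;> norm_num

theorem ind_le_one (z : ℤ) : ind z ≤ 1 := by unfold ind; split_ifs <;> norm_num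

theorem FZ_ge_one_of {p q : ℕ} {n0 : ℕ} (h : ∀ n, n0 ≤ n → 1 * (n + 1) ≤ F p q n) {z : ℤ}
    (hz : (n0 : ℤ) ≤ z) : (1 : ℝ) ≤ FZ p q z := by
  obtain ⟨n, rfl⟩ := Int.eq_ofNat_of_zero_le (show 0 ≤ z by omega)
  change (1 : ℝ) ≤ ((FZ p q (n : ℤ) : ℕ) : ℝ)
  rw [FZ_nat]
  have := h n (by exact_mod_cast hz)
  exact_mod_cast (by omega : 1 ≤ F p q n)

theorem FZ_le_sum {p q : ℕ} (N : ℕ) {z : ℤ} (hz : z < N) :
    (FZ p q z : ℝ) ≤ ((∑ v ∈ range N, F p q v : ℕ) : ℝ) * ind z := by
  rcases lt_or_ge z 0 with h | h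
  · rw [FZ_neg h]; unfold ind; rw [if_neg (by omega)]; simp
  · obtain ⟨n, rfl⟩ := Int.eq_ofNat_of_zero_le h
    change ((FZ p q (n : ℤ) : ℕ) : ℝ) ≤ _
    rw [FZ_nat]
    unfold ind
    rw [if_pos h, mul_one]
    have : F p q n ≤ ∑ v ∈ range N, F p q v :=
      Finset.single_le_sum (f := F p q) (fun _ _ => Nat.zero_le _)
        (by rw [mem_range]; exact_mod_cast hz)
    exact_mod_cast this

theorem am_core {p q : ℕ} (hp : 2 ≤ p) (hq : 2 ≤ q) (hcop : Nat.Coprime q p) (J : ℕ) {δ : ℝ}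
    (hδ : 0 < δ) (hpos : ∀ c, 0 < cnt p q J c)
    (hcl : ∀ c c' : ZMod p, (cnt p q J c : ℝ) ≤ (1 + δ) * cnt p q J c') :
    ∃ (A C : ℝ) (n1 : ℕ), 1 ≤ A ∧ 0 ≤ C ∧ 1 ≤ n1 ∧ (∀ n, n1 ≤ n → 1 ≤ F p q n) ∧
      ∀ j : ℕ, ∀ n m : ℤ, n < n1 * (p : ℤ) ^ j →
        m ≤ n + (rs q (range J) + 1) → (FZ p q m : ℝ) ≤ A * (1 + 2 * δ) ^ j * FZ p q n + C * ind m := by
  have hp0 : (0 : ℤ) < p := by exact_mod_cast (by omega : 0 < p)
  set D := rs q (range J) with hD
  obtain ⟨n0, hn0⟩ := growth hp hq hcop 1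
  set C : ℝ := ((∑ v ∈ range (n0 + D + 2), F p q v : ℕ) : ℝ) with hC
  have hC0 : 0 ≤ C := Nat.cast_nonneg _
  obtain ⟨Cg, hCg⟩ := exists_nat_ge (C * (D + 2) / δ)
  rw [div_le_iff₀ hδ] at hCg
  obtain ⟨n2, hn2⟩ := growth hp hq hcop Cg
  set n1 := n0 + n2 + 1 with hn1
  set A : ℝ := 1 + ((∑ v ∈ range (n1 + D + 2), F p q v : ℕ) : ℝ) with hA
  have hA1 : 1 ≤ A := by
    have : (0 : ℝ) ≤ ((∑ v ∈ range (n1 + D + 2), F p q v : ℕ) : ℝ) := Nat.cast_nonneg _
    linarith
  refine ⟨A, C, n1, hA1, hC0, by omega, fun n hn => by have := hn0 n (by omega); omega, ?_⟩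
  intro j
  induction j with
  | zero =>
    intro n m hn hm
    rw [pow_zero, mul_one] at hn
    rw [pow_zero, mul_one]
    rcases lt_or_ge n (n0 : ℤ) with h | h
    · have h1 : (FZ p q m : ℝ) ≤ C * ind m := FZ_le_sum (n0 + D + 2) (by push_cast; omega)
      have h2 : 0 ≤ A * FZ p q n := mul_nonneg (by linarith) (Nat.cast_nonneg _)
      linarith
    · have h1 : (FZ p q m : ℝ) ≤ ((∑ v ∈ range (n1 + D + 2), F p q v : ℕ) : ℝ) * ind m :=
        FZ_le_sum (n1 + D + 2) (by push_cast; omega)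
      have h2 := FZ_ge_one_of hn0 h
      have h3 : 0 ≤ C * ind m := mul_nonneg hC0 (ind_nonneg _)
      have h4 : ((∑ v ∈ range (n1 + D + 2), F p q v : ℕ) : ℝ) * ind m ≤
          ((∑ v ∈ range (n1 + D + 2), F p q v : ℕ) : ℝ) * 1 :=
        mul_le_mul_of_nonneg_left (ind_le_one _) (Nat.cast_nonneg _)
      have h5 : A * 1 ≤ A * FZ p q n := mul_le_mul_of_nonneg_left h2 (by linarith)
      linarith
  | succ j ih =>
    intro n m hn hm
    have hCm : 0 ≤ C * ind m := mul_nonneg hC0 (ind_nonneg _)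
    have hpow1 : (1 : ℝ) ≤ (1 + 2 * δ) ^ j := one_le_pow₀ (by linarith)
    rcases lt_or_ge n (n1 * (p : ℤ) ^ j) with hlt | hge
    · have h1 := ih n m hlt hm
      have h2 : A * (1 + 2 * δ) ^ j * FZ p q n ≤ A * (1 + 2 * δ) ^ (j + 1) * FZ p q n := by
        apply mul_le_mul_of_nonneg_right _ (Nat.cast_nonneg _)
        apply mul_le_mul_of_nonneg_left _ (by linarith)
        exact pow_le_pow_right₀ (by linarith) (by omega)
      linarith
    · rcases lt_or_ge m 0 with hm0 | hm0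
      · rw [FZ_neg hm0]
        have : 0 ≤ A * (1 + 2 * δ) ^ (j + 1) * FZ p q n :=
          mul_nonneg (mul_nonneg (by linarith) (pow_nonneg (by linarith) _)) (Nat.cast_nonneg _)
        simp only [Nat.cast_zero]; linarith
      · have hpj : (1 : ℤ) ≤ (p : ℤ) ^ j := one_le_pow₀ (by omega)
        have hn1n : (n1 : ℤ) ≤ n := by nlinarith
        obtain ⟨m', rfl⟩ := Int.eq_ofNat_of_zero_le hm0
        obtain ⟨n', rfl⟩ := Int.eq_ofNat_of_zero_le (show 0 ≤ n by omega)
        have hstep := one_step hp hq J hδ.le hpos hcl (A := A * (1 + 2 * δ) ^ j)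
          (mul_nonneg (by linarith) (by linarith)) (fun z => C * ind z) (m := (m' : ℤ)) (n := (n' : ℤ))
          (σ := (D : ℤ) + 1) (σ' := (D : ℤ) + 1) hm (by
            rw [← hD]
            have : (2 : ℤ) ≤ p := by exact_mod_cast hp
            have : (0 : ℤ) ≤ D := by positivity
            nlinarith) (by
            intro v v' hv' hvv'
            apply ih v' v _ hvv'
            have : (p : ℤ) * v' < p * (n1 * (p : ℤ) ^ j) := by
              calc (p : ℤ) * v' ≤ n' := hv'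
                _ < n1 * (p : ℤ) ^ (j + 1) := hn
                _ = p * (n1 * (p : ℤ) ^ j) := by ring
            exact lt_of_mul_lt_mul_left this hp0.le) (m' + n' + J) (by push_cast; omega) (by push_cast; omega) (by omega)
        have herr : ∑ B ∈ (range (m' + n' + J)).powerset,
            (if (p : ℤ) ∣ (m' : ℤ) - rs q B then C * ind (((m' : ℤ) - rs q B) / p) else 0) ≤
            C * (m' + 1) := by
          have h1 : ∀ B ∈ (range (m' + n' + J)).powerset,
              (if (p : ℤ) ∣ (m' : ℤ) - rs q B then C * ind (((m' : ℤ) - rs q B) / p) else 0) ≤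
              if rs q B ≤ m' then C else 0 := by
            intro B _
            by_cases hB : rs q B ≤ m'
            · rw [if_pos hB]
              split_ifs
              · calc C * ind _ ≤ C * 1 := mul_le_mul_of_nonneg_left (ind_le_one _) hC0
                  _ = C := mul_one _
              · exact hC0
            · rw [if_neg hB]
              split_ifs
              · have : ind (((m' : ℤ) - rs q B) / p) = 0 := by
                  unfold ind
                  rw [if_neg]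
                  have : ((m' : ℤ) - rs q B) / p < 0 := Int.ediv_neg_of_neg_of_pos (by omega) hp0
                  omega
                rw [this, mul_zero]
              · exact le_refl _
          refine (Finset.sum_le_sum h1).trans ?_
          rw [← Finset.sum_filter, Finset.sum_const, nsmul_eq_mul, mul_comm]
          apply mul_le_mul_of_nonneg_left _ hC0
          exact_mod_cast card_rs_le hq _ m'
        have hFn : (1 : ℝ) ≤ FZ p q (n' : ℤ) := FZ_ge_one_of hn0 (by omega)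
        have hgr : C * (m' + 1) ≤ δ * FZ p q (n' : ℤ) := by
          have h1 : Cg * (n' + 1) ≤ F p q n' := hn2 n' (by omega)
          have h2 : ((Cg : ℝ)) * (n' + 1) ≤ F p q n' := by exact_mod_cast h1
          rw [FZ_nat]
          have h3 : (m' : ℝ) + 1 ≤ (D + 2) * (n' + 1) := by
            have : (m' : ℤ) ≤ n' + (D + 1) := hm
            have h4 : m' + 1 ≤ (D + 2) * (n' + 1) := by
              have : m' ≤ n' + (D + 1) := by exact_mod_cast this
              nlinarith
            exact_mod_cast h4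
          calc C * ((m' : ℝ) + 1) ≤ C * ((D + 2) * (n' + 1)) := mul_le_mul_of_nonneg_left h3 hC0
            _ = C * (D + 2) * (n' + 1) := by ring
            _ ≤ Cg * δ * (n' + 1) := mul_le_mul_of_nonneg_right hCg (by positivity)
            _ = δ * (Cg * (n' + 1)) := by ring
            _ ≤ δ * F p q n' := mul_le_mul_of_nonneg_left h2 hδ.le
        have hAj : 1 ≤ A * (1 + 2 * δ) ^ j := one_le_mul_of_one_le_of_one_le hA1 hpow1
        have hfin : δ * (FZ p q (n' : ℤ) : ℝ) ≤ δ * (A * (1 + 2 * δ) ^ j * FZ p q (n' : ℤ)) := by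
          apply mul_le_mul_of_nonneg_left _ hδ.le
          nlinarith
        have e : A * (1 + 2 * δ) ^ (j + 1) * FZ p q (n' : ℤ) =
            (1 + δ) * (A * (1 + 2 * δ) ^ j) * FZ p q (n' : ℤ) +
              δ * (A * (1 + 2 * δ) ^ j * FZ p q (n' : ℤ)) := by ring
        change (FZ p q (m' : ℤ) : ℝ) ≤ A * (1 + 2 * δ) ^ (j + 1) * FZ p q (n' : ℤ) + C * ind (m' : ℤ)
        rw [e]
        linarith

/-- all data needed later, for a given `ε` -/
theorem am_package {p q : ℕ} (hp : 2 ≤ p) (hq : 2 ≤ q) (hcop : Nat.Coprime q p) {ε : ℝ} (hε : 0 < ε) :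
    ∃ (J : ℕ) (δ c C : ℝ) (n1 : ℕ), 0 < δ ∧ (∀ c, 0 < cnt p q J c) ∧
      (∀ c c' : ZMod p, (cnt p q J c : ℝ) ≤ (1 + δ) * cnt p q J c') ∧ 0 ≤ c ∧ 0 ≤ C ∧ 1 ≤ n1 ∧
      δ ≤ ε * Real.log p ∧
      (∀ n, n1 ≤ n → 1 ≤ F p q n) ∧
      ∀ X : ℕ, 1 ≤ X → ∀ n m : ℤ, n ≤ X → m ≤ n + (rs q (range J) + 1) →
        (FZ p q m : ℝ) ≤ Real.exp (ε * Real.log X + c) * FZ p q n + C * ind m := by
  have hlp : 0 < Real.log p := Real.log_pos (by exact_mod_cast (by omega : 1 < p))
  set δ : ℝ := ε * Real.log p / 2 with hδ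
  have hδ0 : 0 < δ := by rw [hδ]; positivity
  obtain ⟨J, hpos, hcl⟩ := equi hp hcop hδ0
  obtain ⟨A, C, n1, hA, hC, hn1, hF, hcore⟩ := am_core hp hq hcop J hδ0 hpos hcl
  have hlA : 0 ≤ Real.log A := Real.log_nonneg hA
  refine ⟨J, δ, Real.log A + ε * Real.log p, C, n1, hδ0, hpos, hcl, by positivity, hC, hn1,
    by rw [hδ]; nlinarith, hF, ?_⟩
  intro X hX n m hn hm
  set j := Nat.log p X + 1 with hj
  have h1 : X < p ^ j := Nat.lt_pow_succ_log_self (by omega) X
  have h2 : n < n1 * (p : ℤ) ^ j := by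
    have h3 : X < n1 * p ^ j := lt_of_lt_of_le h1 (Nat.le_mul_of_pos_left _ (by omega))
    have h4 : (X : ℤ) < n1 * (p : ℤ) ^ j := by exact_mod_cast h3
    omega
  have h3 := hcore j n m h2 hm
  refine h3.trans ?_
  apply add_le_add _ le_rfl
  apply mul_le_mul_of_nonneg_right _ (Nat.cast_nonneg _)
  have h4 : (j : ℝ) * Real.log p ≤ Real.log X + Real.log p := by
    have h5 : p ^ Nat.log p X ≤ X := Nat.pow_log_le_self p (by omega)
    have h6 : ((p : ℝ)) ^ Nat.log p X ≤ X := by exact_mod_cast h5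
    have h7 : Real.log ((p : ℝ) ^ Nat.log p X) ≤ Real.log X :=
      Real.log_le_log (by positivity) h6
    rw [Real.log_pow] at h7
    rw [hj]; push_cast; linarith
  have h8 : (1 + 2 * δ) ^ j ≤ Real.exp (ε * Real.log X + ε * Real.log p) := by
    calc (1 + 2 * δ) ^ j ≤ (Real.exp (2 * δ)) ^ j := by
          apply pow_le_pow_left₀ (by linarith)
          have := Real.add_one_le_exp (2 * δ)
          linarith
      _ = Real.exp (j * (2 * δ)) := by rw [← Real.exp_nat_mul]
      _ ≤ _ := by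
          apply Real.exp_le_exp.2
          rw [hδ]
          nlinarith
  calc A * (1 + 2 * δ) ^ j ≤ A * Real.exp (ε * Real.log X + ε * Real.log p) :=
        mul_le_mul_of_nonneg_left h8 (by linarith)
    _ = Real.exp (Real.log A) * Real.exp (ε * Real.log X + ε * Real.log p) := by
        rw [Real.exp_log (by linarith)]
    _ = Real.exp (ε * Real.log X + (Real.log A + ε * Real.log p)) := by
        rw [← Real.exp_add]; congr 1; ring

/-- near monotonicity -/
theorem near_mono {p q : ℕ} (hp : 2 ≤ p) (hq : 2 ≤ q) (hcop : Nat.Coprime q p) {ε : ℝ} (hε : 0 < ε) :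
    ∃ (c : ℝ) (n1 : ℕ), 0 ≤ c ∧ 1 ≤ n1 ∧ ∀ n, n1 ≤ n → 1 ≤ F p q n ∧ ∀ m ≤ n,
      (F p q m : ℝ) ≤ Real.exp (ε * Real.log n + c) * F p q n := by
  obtain ⟨J, δ, c, C, n1, hδ, hpos, hcl, hc, hC, hn1, _, hF, hmain⟩ := am_package hp hq hcop hε
  refine ⟨c + C, n1, by linarith, hn1, fun n hn => ⟨hF n hn, fun m hm => ?_⟩⟩
  have h1 := hmain n (by omega) n m le_rfl (by
    have : (m : ℤ) ≤ n := by exact_mod_cast hm
    have : (0 : ℤ) ≤ rs q (range J) := by positivity
    omega)
  rw [FZ_nat, FZ_nat] at h1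
  have hFn : (1 : ℝ) ≤ F p q n := by exact_mod_cast hF n hn
  have h2 : C * ind m ≤ C := by
    calc C * ind m ≤ C * 1 := mul_le_mul_of_nonneg_left (ind_le_one _) hC
      _ = C := mul_one _
  have hln : 0 ≤ Real.log n := Real.log_nonneg (by exact_mod_cast (by omega : 1 ≤ n))
  set e := Real.exp (ε * Real.log n + c) with he
  have he1 : 1 ≤ e := by rw [he]; exact Real.one_le_exp (by positivity)
  have h3 : Real.exp (ε * Real.log n + (c + C)) = e * Real.exp C := by
    rw [he, ← Real.exp_add]; congr 1; ring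
  rw [h3]
  have h4 : 1 + C ≤ Real.exp C := by have := Real.add_one_le_exp C; linarith
  have h5 : C ≤ e * C * F p q n := by
    have : C * 1 ≤ C * (e * F p q n) :=
      mul_le_mul_of_nonneg_left (one_le_mul_of_one_le_of_one_le he1 hFn) hC
    nlinarith
  have h6 : e * (1 + C) * F p q n ≤ e * Real.exp C * F p q n := by
    apply mul_le_mul_of_nonneg_right _ (Nat.cast_nonneg _)
    exact mul_le_mul_of_nonneg_left h4 (by linarith)
  nlinarith

/-- growth under multiplication by `p`, from above -/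
theorem up_raw {p q : ℕ} (hp : 2 ≤ p) (hq : 2 ≤ q) (n : ℕ) (X : ℝ)
    (hX : ∀ m ≤ n, (F p q m : ℝ) ≤ X) :
    (F p q (p * n) : ℝ) ≤ 2 ^ (Nat.log q (p * n) + 1) * X := by
  have hp0 : (0 : ℤ) < p := by exact_mod_cast (by omega : 0 < p)
  have hX0 : 0 ≤ X := (Nat.cast_nonneg _).trans (hX 0 (Nat.zero_le _))
  have h1 := FZ_rec hp hq ((p * n : ℕ) : ℤ) (p * n) le_rfl
  rw [FZ_nat] at h1
  rw [h1]
  push_cast
  have h2 : ∀ B ∈ (range (p * n)).powerset,
      (if (p : ℤ) ∣ (p : ℤ) * n - rs q B then (FZ p q (((p : ℤ) * n - rs q B) / p) : ℝ) else 0) ≤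
      if rs q B ≤ p * n then X else 0 := by
    intro B _
    by_cases hB : rs q B ≤ p * n
    · rw [if_pos hB]
      split_ifs with hd
      · have hB' : (rs q B : ℤ) ≤ p * n := by exact_mod_cast hB
        have h3 : 0 ≤ ((p : ℤ) * n - rs q B) / p := Int.ediv_nonneg (by omega) hp0.le
        have h4 : ((p : ℤ) * n - rs q B) / p ≤ n := by
          apply Int.ediv_le_of_le_mul hp0
          have : (0 : ℤ) ≤ rs q B := by positivity
          nlinarith
        obtain ⟨v, hv⟩ := Int.eq_ofNat_of_zero_le h3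
        rw [hv] at h4 ⊢
        change ((FZ p q (v : ℤ) : ℕ) : ℝ) ≤ X
        rw [FZ_nat]
        exact hX v (by exact_mod_cast h4)
      · exact hX0
    · rw [if_neg hB]
      have hB' : (p : ℤ) * n < rs q B := by exact_mod_cast (not_le.1 hB)
      split_ifs
      · rw [FZ_neg]
        · simp
        · exact Int.ediv_neg_of_neg_of_pos (by omega) hp0
      · exact le_refl _
  refine (Finset.sum_le_sum h2).trans ?_
  rw [← Finset.sum_filter, Finset.sum_const, nsmul_eq_mul]
  apply mul_le_mul_of_nonneg_right _ hX0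
  exact_mod_cast card_rs_le' hq _ (p * n)

end Pool.Agent.X34.PQ
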