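import Pool.Agent.X34.PQ.Mono

/-!
Local regularity: `F n` and `F (n - s)` are comparable for `s ≤ n^(1-θ)`.
-/

namespace Pool.Agent.X34.PQ

open Finset

theorem exists_log_ge (R : ℝ) : ∃ n3 : ℕ, ∀ n : ℕ, n3 ≤ n → R ≤ Real.log n := by
  obtain ⟨n3, hn3⟩ := exists_nat_ge (Real.exp R)
  refine ⟨n3, fun n hn => ?_⟩
  have h1 : Real.exp R ≤ n := hn3.trans (by exact_mod_cast hn)
  have h2 := Real.log_le_log (Real.exp_pos R) h1
  rwa [Real.log_exp] at h2

def GS (p q k n : ℕ) : Set (Finset (ℕ × ℕ)) := {T | (∀ x ∈ T, x.1 < k) ∧ wt p q T ≤ n}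

theorem finite_GS {p q : ℕ} (hp : 2 ≤ p) (hq : 2 ≤ q) (k n : ℕ) : (GS p q k n).Finite :=
  (finite_le hp hq n).subset (fun T hT => by
    simp only [GS, Set.mem_ofPred_eq] at hT ⊢
    exact hT.2)

noncomputable def G (p q k : ℕ) (z : ℤ) : ℕ := if 0 ≤ z then (GS p q k z.toNat).ncard else 0

theorem G_nat (p q k n : ℕ) : G p q k (n : ℤ) = (GS p q k n).ncard := by
  unfold G; simp

theorem ind_le_G {p q : ℕ} (hp : 2 ≤ p) (hq : 2 ≤ q) (z : ℤ) : ind z ≤ G p q 0 z := by
  unfold ind G
  split_ifs with h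
  · have : 1 ≤ (GS p q 0 z.toNat).ncard := by
      have h1 : ({∅} : Set (Finset (ℕ × ℕ))) ⊆ GS p q 0 z.toNat := by
        intro T hT
        rw [Set.mem_singleton_iff] at hT
        subst hT
        exact ⟨by simp, by simp [wt]⟩
      have := Set.ncard_le_ncard h1 (finite_GS hp hq _ _)
      rwa [Set.ncard_singleton] at this
    exact_mod_cast this
  · simp

theorem G_step {p q : ℕ} (hp : 2 ≤ p) (hq : 2 ≤ q) (k N : ℕ) (z : ℤ) :
    ∑ B ∈ (range N).powerset, (if (p : ℤ) ∣ z - rs q B then G p q k ((z - rs q B) / p) else 0) ≤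
      G p q (k + 1) z := by
  classical
  have hp0 : (0 : ℤ) < p := by exact_mod_cast (by omega : 0 < p)
  rcases lt_or_ge z 0 with hz | hz
  · apply le_of_eq_of_le _ (Nat.zero_le _)
    apply Finset.sum_eq_zero
    intro B _
    split_ifs with h
    · unfold G
      rw [if_neg]
      have : (0 : ℤ) ≤ rs q B := by positivity
      have : (z - rs q B) / p < 0 := Int.ediv_neg_of_neg_of_pos (by omega) hp0
      omega
    · rfl
  · obtain ⟨n, rfl⟩ := Int.eq_ofNat_of_zero_le hz
    change _ ≤ G p q (k + 1) (n : ℤ)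
    rw [G_nat, Set.ncard_eq_toFinset_card _ (finite_GS hp hq (k + 1) n)]
    set fb : Finset ℕ → Finset (Finset (ℕ × ℕ)) := fun B =>
      if (p : ℤ) ∣ (n : ℤ) - rs q B ∧ 0 ≤ ((n : ℤ) - rs q B) / p then
        (finite_GS hp hq k (((n : ℤ) - rs q B) / p).toNat).toFinset else ∅ with hfb
    have h1 : ∀ B ∈ (range N).powerset,
        (if (p : ℤ) ∣ (n : ℤ) - rs q B then G p q k (((n : ℤ) - rs q B) / p) else 0) = (fb B).card := by
      intro B _
      rw [hfb]
      simp only
      by_cases h : (p : ℤ) ∣ (n : ℤ) - rs q B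
      · rw [if_pos h]
        unfold G
        by_cases h' : 0 ≤ ((n : ℤ) - rs q B) / p
        · rw [if_pos h', if_pos ⟨h, h'⟩, Set.ncard_eq_toFinset_card _ (finite_GS hp hq k _)]
        · rw [if_neg h', if_neg (fun hc => h' hc.2), card_empty]
      · rw [if_neg h, if_neg (fun hc => h hc.1), card_empty]
    rw [Finset.sum_congr rfl h1, ← Finset.card_sigma]
    apply Finset.card_le_card_of_injOn (fun x => asm x.1 x.2)
    · rintro ⟨B, T⟩ hx
      rw [mem_coe, mem_sigma] at hx
      obtain ⟨_, hx⟩ := hx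
      rw [hfb] at hx
      simp only at hx
      split_ifs at hx with hc
      · rw [Set.Finite.mem_toFinset] at hx
        obtain ⟨hx1, hx2⟩ := hx
        rw [mem_coe, Set.Finite.mem_toFinset]
        refine ⟨?_, ?_⟩
        · rintro ⟨i, j⟩ hx
          simp only at hx ⊢
          rw [mem_asm] at hx
          rcases hx with hx | hx
          · simp only at hx; omega
          · have := hx1 _ hx.2
            simp only at this hx; omega
        · rw [wt_asm]
          obtain ⟨⟨c, hc1⟩, hc2⟩ := hc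
          rw [hc1, Int.mul_ediv_cancel_left _ hp0.ne'] at hx2 hc2
          have h3 : (wt p q T : ℤ) ≤ c := by omega
          have h4 : (p : ℤ) * wt p q T ≤ p * c := mul_le_mul_of_nonneg_left h3 hp0.le
          have h5 : ((rs q B + p * wt p q T : ℕ) : ℤ) ≤ n := by push_cast; omega
          exact_mod_cast h5
      · simp at hx
    · rintro ⟨B, T⟩ _ ⟨B', T'⟩ _ heq
      simp only at heq
      have h2 : B = B' := by rw [← bot_asm B T, ← bot_asm B' T', heq]
      have h3 : T = T' := by rw [← top_asm B T, ← top_asm B' T', heq]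
      rw [h2, h3]

/-- the `k` step comparison -/
theorem claim {p q : ℕ} (hp : 2 ≤ p) (hq : 2 ≤ q) (J : ℕ) {δ : ℝ}
    (hδ : 0 ≤ δ) (hpos : ∀ c, 0 < cnt p q J c)
    (hcl : ∀ c c' : ZMod p, (cnt p q J c : ℝ) ≤ (1 + δ) * cnt p q J c') {M C : ℝ} (hM : 0 ≤ M)
    (hC : 0 ≤ C) (X : ℕ)
    (hbase : ∀ n m : ℤ, n ≤ X → m ≤ n + (rs q (range J) + 1) →
        (FZ p q m : ℝ) ≤ M * FZ p q n + C * ind m) (k : ℕ) :
    ∀ n m : ℤ, n ≤ X → m ≤ n + ((p : ℤ) ^ k + rs q (range J)) →
      (FZ p q m : ℝ) ≤ (1 + δ) ^ k * M * FZ p q n + C * G p q k m := by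
  have hp0 : (0 : ℤ) < p := by exact_mod_cast (by omega : 0 < p)
  induction k with
  | zero =>
    intro n m hn hm
    have h1 := hbase n m hn (by rw [pow_zero] at hm; omega)
    have h2 : C * ind m ≤ C * G p q 0 m := mul_le_mul_of_nonneg_left (ind_le_G hp hq m) hC
    rw [pow_zero, one_mul]
    linarith
  | succ k ih =>
    intro n m hn hm
    have hstep := one_step hp hq J hδ hpos hcl (A := (1 + δ) ^ k * M)
      (mul_nonneg (pow_nonneg (by linarith) _) hM) (fun z => C * (G p q k z : ℝ)) (m := m) (n := n)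
      (σ := (p : ℤ) ^ (k + 1) + rs q (range J)) (σ' := (p : ℤ) ^ k + rs q (range J)) hm (by
        have h2 : (2 : ℤ) ≤ p := by exact_mod_cast hp
        have h3 : (0 : ℤ) ≤ rs q (range J) := by positivity
        have h4 : (p : ℤ) ^ (k + 1) = p * (p : ℤ) ^ k := by rw [pow_succ]; ring
        nlinarith) (by
        intro v v' hv' hvv'
        apply ih v' v _ hvv'
        by_contra hcon
        push Not at hcon
        have h2 : (2 : ℤ) ≤ p := by exact_mod_cast hp
        have h3 : (0 : ℤ) ≤ X := by positivity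
        nlinarith) (m.toNat + n.toNat + J) (by push_cast; omega) (by push_cast; omega) (by omega)
    have h1 : ∑ B ∈ (range (m.toNat + n.toNat + J)).powerset,
        (if (p : ℤ) ∣ m - rs q B then C * (G p q k ((m - rs q B) / p) : ℝ) else 0) ≤
        C * G p q (k + 1) m := by
      have h2 := G_step hp hq k (m.toNat + n.toNat + J) m
      have h3 : ∑ B ∈ (range (m.toNat + n.toNat + J)).powerset,
          (if (p : ℤ) ∣ m - rs q B then C * (G p q k ((m - rs q B) / p) : ℝ) else 0) =
          C * ((∑ B ∈ (range (m.toNat + n.toNat + J)).powerset,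
            (if (p : ℤ) ∣ m - rs q B then G p q k ((m - rs q B) / p) else 0) : ℕ) : ℝ) := by
        push_cast
        rw [Finset.mul_sum]
        refine Finset.sum_congr rfl fun B _ => ?_
        split_ifs <;> simp
      rw [h3]
      apply mul_le_mul_of_nonneg_left _ hC
      exact_mod_cast h2
    have e : (1 + δ) ^ (k + 1) * M = (1 + δ) * ((1 + δ) ^ k * M) := by ring
    rw [e]
    linarith

/-- few sums without elements of high level -/
theorem G_bound {p q : ℕ} (hp : 2 ≤ p) (hq : 2 ≤ q) (k n : ℕ) (V : Finset (ℕ × ℕ))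
    (hV : ∀ x ∈ V, k ≤ x.1) (hw : wt p q V ≤ n) :
    G p q k (n : ℤ) * 2 ^ V.card ≤ ∑ v ∈ range (2 * n + 1), F p q v := by
  classical
  rw [G_nat, Set.ncard_eq_toFinset_card _ (finite_GS hp hq k n), ← card_powerset, ← card_product]
  have h1 : ∀ v ∈ range (2 * n + 1), F p q v = ((finite_reps hp hq v).toFinset).card := by
    intro v _
    unfold F
    rw [Set.ncard_eq_toFinset_card _ (finite_reps hp hq v)]
  rw [Finset.sum_congr rfl h1, ← Finset.card_sigma]
  have hd : ∀ T ∈ GS p q k n, ∀ S ⊆ V, Disjoint T S := by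
    intro T hT S hS
    rw [Finset.disjoint_left]
    intro x hx hx'
    have := hT.1 x hx
    have := hV x (hS hx')
    omega
  apply Finset.card_le_card_of_injOn (fun x => ⟨wt p q (x.1 ∪ x.2), x.1 ∪ x.2⟩)
  · rintro ⟨T, S⟩ hx
    rw [mem_coe, mem_product, Set.Finite.mem_toFinset, mem_powerset] at hx
    simp only at hx
    rw [mem_coe, mem_sigma]
    refine ⟨?_, ?_⟩
    · simp only
      rw [mem_range, wt_union (hd T hx.1 S hx.2)]
      have h2 := hx.1.2
      have h3 := wt_mono (p := p) (q := q) hx.2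
      omega
    · simp only
      rw [Set.Finite.mem_toFinset]
      rfl
  · rintro ⟨T, S⟩ hx ⟨T', S'⟩ hx' heq
    rw [mem_coe, mem_product, Set.Finite.mem_toFinset, mem_powerset] at hx hx'
    simp only at hx hx'
    simp only [Sigma.mk.injEq] at heq
    have h2 : T ∪ S = T' ∪ S' := eq_of_heq heq.2
    have h3 : T = T' := by
      ext x
      constructor
      · intro h
        have : x ∈ T' ∪ S' := by rw [← h2]; exact mem_union_left _ h
        rw [mem_union] at this
        rcases this with h' | h'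
        · exact h'
        · have := hx.1.1 x h; have := hV x (hx'.2 h'); omega
      · intro h
        have : x ∈ T ∪ S := by rw [h2]; exact mem_union_left _ h
        rw [mem_union] at this
        rcases this with h' | h'
        · exact h'
        · have := hx'.1.1 x h; have := hV x (hx.2 h'); omega
    have h4 : S = S' := by
      ext x
      constructor
      · intro h
        have : x ∈ T' ∪ S' := by rw [← h2]; exact mem_union_right _ h
        rw [mem_union] at this
        rcases this with h' | h'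
        · have := hx'.1.1 x h'; have := hV x (hx.2 h); omega
        · exact h'
      · intro h
        have : x ∈ T ∪ S := by rw [h2]; exact mem_union_right _ h
        rw [mem_union] at this
        rcases this with h' | h'
        · have := hx.1.1 x h'; have := hV x (hx'.2 h); omega
        · exact h'
    rw [h3, h4]

theorem sum_le_poly {p q : ℕ} (hp : 2 ≤ p) (hq : 2 ≤ q) (hcop : Nat.Coprime q p) :
    ∃ (c : ℝ) (n1 : ℕ), 0 ≤ c ∧ 1 ≤ n1 ∧ ∀ n, n1 ≤ n →
      ((∑ v ∈ range (2 * n + 1), F p q v : ℕ) : ℝ) ≤ Real.exp (4 * Real.log n + c) * F p q n := by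
  obtain ⟨c, n1, hc, hn1, hmono⟩ := near_mono hp hq hcop one_pos
  have hp0 : (0 : ℝ) < p := by exact_mod_cast (by omega : 0 < p)
  have hlp : 0 ≤ Real.log p := Real.log_nonneg (by exact_mod_cast (by omega : 1 ≤ p))
  refine ⟨Real.log 3 + (Real.log p + c) + (Real.log 2 + Real.log p) + c, n1, ?_, hn1, fun n hn => ?_⟩
  · have : 0 ≤ Real.log 3 := Real.log_nonneg (by norm_num)
    have : 0 ≤ Real.log 2 := Real.log_nonneg (by norm_num)
    positivity
  have hn0 : (0 : ℝ) < n := by exact_mod_cast (by omega : 0 < n)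
  have hn1' : (1 : ℝ) ≤ n := by exact_mod_cast (by omega : 1 ≤ n)
  have hpn : n1 ≤ p * n := by nlinarith
  have h2n : 2 * n ≤ p * n := Nat.mul_le_mul_right _ hp
  have h1 : ((∑ v ∈ range (2 * n + 1), F p q v : ℕ) : ℝ) ≤
      (2 * n + 1 : ℝ) * (Real.exp (1 * Real.log ((p * n : ℕ) : ℝ) + c) * F p q (p * n)) := by
    push_cast
    have : ∀ v ∈ range (2 * n + 1), (F p q v : ℝ) ≤
        Real.exp (1 * Real.log ((p * n : ℕ) : ℝ) + c) * F p q (p * n) := by
      intro v hv
      rw [mem_range] at hv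
      exact (hmono (p * n) hpn).2 v (by omega)
    have h := Finset.sum_le_card_nsmul _ _ _ this
    rw [card_range, nsmul_eq_mul] at h
    push_cast at h
    exact h
  have h2 := up_raw hp hq n (Real.exp (1 * Real.log n + c) * F p q n) (fun m hm => (hmono n hn).2 m hm)
  have h3 : ((2 : ℝ)) ^ (Nat.log q (p * n) + 1) ≤ 2 * (p * n) := by
    have h4 : 2 ^ Nat.log q (p * n) ≤ p * n := by
      calc 2 ^ Nat.log q (p * n) ≤ q ^ Nat.log q (p * n) := Nat.pow_le_pow_left hq _
        _ ≤ p * n := Nat.pow_log_le_self q (Nat.mul_ne_zero (by omega) (by omega))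
    have h5 : ((2 : ℝ)) ^ Nat.log q (p * n) ≤ p * n := by exact_mod_cast h4
    rw [pow_succ]; linarith
  have h6 : (F p q (p * n) : ℝ) ≤ (2 * (p * n)) * (Real.exp (1 * Real.log n + c) * F p q n) :=
    h2.trans (mul_le_mul_of_nonneg_right h3 (by positivity))
  have h7 : (2 * n + 1 : ℝ) ≤ 3 * n := by linarith
  calc ((∑ v ∈ range (2 * n + 1), F p q v : ℕ) : ℝ) ≤
      (2 * n + 1 : ℝ) * (Real.exp (1 * Real.log ((p * n : ℕ) : ℝ) + c) * F p q (p * n)) := h1
    _ ≤ (3 * n) * (Real.exp (1 * Real.log ((p * n : ℕ) : ℝ) + c) *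
        ((2 * (p * n)) * (Real.exp (1 * Real.log n + c) * F p q n))) := by
        apply mul_le_mul h7 _ (by positivity) (by positivity)
        exact mul_le_mul_of_nonneg_left h6 (Real.exp_pos _).le
    _ = Real.exp (4 * Real.log n + (Real.log 3 + (Real.log p + c) + (Real.log 2 + Real.log p) + c)) *
        F p q n := by
        have e1 : (3 * n : ℝ) = Real.exp (Real.log 3 + Real.log n) := by
          rw [Real.exp_add, Real.exp_log (by norm_num), Real.exp_log hn0]
        have e2 : (2 * (p * n) : ℝ) = Real.exp (Real.log 2 + Real.log p + Real.log n) := by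
          rw [Real.exp_add, Real.exp_add, Real.exp_log (by norm_num), Real.exp_log hn0,
            Real.exp_log hp0]; ring
        have e3 : Real.log ((p * n : ℕ) : ℝ) = Real.log p + Real.log n := by
          push_cast
          rw [Real.log_mul hp0.ne' hn0.ne']
        rw [e1, e2, e3]
        have e4 : ∀ a b c d f : ℝ, Real.exp a * (Real.exp b * (Real.exp c * (Real.exp d * f))) =
            Real.exp (a + b + c + d) * f := by
          intro a b c d f
          rw [Real.exp_add, Real.exp_add, Real.exp_add]; ring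
        rw [e4]
        congr 2
        ring

theorem G_small {p q : ℕ} (hp : 2 ≤ p) (hq : 2 ≤ q) (hcop : Nat.Coprime q p) {θ C : ℝ}
    (hθ : 0 < θ) (hC : 0 ≤ C) :
    ∃ n2 : ℕ, ∀ n, n2 ≤ n → ∀ k : ℕ, (k : ℝ) * Real.log p ≤ (1 - θ) * Real.log n →
      C * G p q k (n : ℤ) ≤ F p q n / 2 := by
  obtain ⟨c, n1, hc, hn1, hsum⟩ := sum_le_poly hp hq hcop
  have hlp : 0 < Real.log p := Real.log_pos (by exact_mod_cast (by omega : 1 < p))
  have hlq : 0 < Real.log q := Real.log_pos (by exact_mod_cast (by omega : 1 < q))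
  have hl2 : 0 < Real.log 2 := Real.log_pos (by norm_num)
  obtain ⟨a, ha⟩ := exists_nat_ge (5 * Real.log q / (θ * Real.log 2))
  rw [div_le_iff₀ (by positivity)] at ha
  set R : ℝ := a * Real.log p / θ + (c + Real.log (2 * C + 1) +
    a * Real.log 2 / Real.log q * (a * Real.log p + Real.log q)) with hR
  obtain ⟨n3, hn3⟩ := exists_log_ge R
  refine ⟨n1 + n3, fun n hn k hk => ?_⟩
  have hlogn := hn3 n (by omega)
  have hn0 : (0 : ℝ) < n := by exact_mod_cast (by omega : 0 < n)
  have hp0 : (0 : ℝ) < p := by exact_mod_cast (by omega : 0 < p)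
  have hq0 : (0 : ℝ) < q := by exact_mod_cast (by omega : 0 < q)
  have hlC : 0 ≤ Real.log (2 * C + 1) := Real.log_nonneg (by linarith)
  have hR1 : a * Real.log p / θ ≤ Real.log n := by
    refine le_trans ?_ hlogn
    rw [hR]
    have : 0 ≤ a * Real.log 2 / Real.log q * (a * Real.log p + Real.log q) := by positivity
    linarith
  have hR2 : c + Real.log (2 * C + 1) +
    a * Real.log 2 / Real.log q * (a * Real.log p + Real.log q) ≤ Real.log n := by
    refine le_trans ?_ hlogn
    rw [hR]
    have : 0 ≤ a * Real.log p / θ := by positivity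
    linarith
  rw [div_le_iff₀ hθ] at hR1
  have hpka : p ^ (k + a) ≤ n := by
    have : ((p : ℝ)) ^ (k + a) ≤ n := by
      rw [← Real.log_le_log_iff (by positivity) hn0, Real.log_pow]
      push_cast; linarith
    exact_mod_cast this
  obtain ⟨b, hb1, hb2⟩ := exists_scale hq (Nat.one_le_pow (k + a) p (by omega)) hpka
  have hGb := G_bound hp hq k n (Ico k (k + a) ×ˢ range b) (by
    intro x hx
    simp only [mem_product, mem_Ico] at hx
    omega) (by
    refine le_trans (wt_mono ?_) ((wt_rect hp hq b (k + a)).trans hb1)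
    intro x hx
    simp only [mem_product, mem_Ico, mem_range] at hx ⊢
    omega)
  rw [card_product, Nat.card_Ico, card_range] at hGb
  have e1 : k + a - k = a := by omega
  rw [e1] at hGb
  have hGb' : (G p q k (n : ℤ) : ℝ) * 2 ^ (a * b) ≤ ((∑ v ∈ range (2 * n + 1), F p q v : ℕ) : ℝ) := by
    exact_mod_cast hGb
  have hs := hsum n (by omega)
  have hb3 : Real.log n ≤ (k + a) * Real.log p + (b + 1) * Real.log q := by
    have h1 : (n : ℝ) ≤ (p : ℝ) ^ (k + a) * (q : ℝ) ^ (b + 1) := by exact_mod_cast hb2.le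
    have h2 := Real.log_le_log hn0 h1
    rw [Real.log_mul (by positivity) (by positivity), Real.log_pow, Real.log_pow] at h2
    push_cast at h2
    exact h2
  have hb4 : θ * Real.log n - a * Real.log p - Real.log q ≤ b * Real.log q := by nlinarith
  have hb5 : a * Real.log 2 / Real.log q * (θ * Real.log n - a * Real.log p - Real.log q) ≤
      a * b * Real.log 2 := by
    have h1 : a * Real.log 2 / Real.log q * (θ * Real.log n - a * Real.log p - Real.log q) ≤
        a * Real.log 2 / Real.log q * (b * Real.log q) :=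
      mul_le_mul_of_nonneg_left hb4 (by positivity)
    have h2 : a * Real.log 2 / Real.log q * (b * Real.log q) = a * b * Real.log 2 := by
      field_simp
    linarith
  have hb6 : 5 * Real.log n ≤ a * Real.log 2 / Real.log q * (θ * Real.log n) := by
    have hln : 0 ≤ Real.log n := Real.log_nonneg (by exact_mod_cast (by omega : 1 ≤ n))
    have h1 : 5 ≤ a * Real.log 2 / Real.log q * θ := by
      rw [div_mul_eq_mul_div, le_div_iff₀ hlq]; linarith
    nlinarith
  have hb7 : 4 * Real.log n + c + Real.log (2 * C + 1) ≤ a * b * Real.log 2 := by nlinarith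
  have hpow : Real.exp (4 * Real.log n + c) * (2 * C + 1) ≤ (2 : ℝ) ^ (a * b) := by
    have h1 : Real.exp (4 * Real.log n + c + Real.log (2 * C + 1)) ≤ Real.exp (a * b * Real.log 2) :=
      Real.exp_le_exp.2 hb7
    rw [Real.exp_add, Real.exp_log (by linarith)] at h1
    have h2 : Real.exp (a * b * Real.log 2) = (2 : ℝ) ^ (a * b) := by
      have : (a : ℝ) * b * Real.log 2 = ((a * b : ℕ) : ℝ) * Real.log 2 := by push_cast; ring
      rw [this, Real.exp_nat_mul, Real.exp_log (by norm_num)]
    rwa [h2] at h1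
  have hG0 : (0 : ℝ) ≤ G p q k (n : ℤ) := Nat.cast_nonneg _
  have h8 : (G p q k (n : ℤ) : ℝ) * (Real.exp (4 * Real.log n + c) * (2 * C + 1)) ≤
      Real.exp (4 * Real.log n + c) * F p q n :=
    (mul_le_mul_of_nonneg_left hpow hG0).trans (hGb'.trans hs)
  have h9 : Real.exp (4 * Real.log n + c) * (G p q k (n : ℤ) * (2 * C + 1)) ≤
      Real.exp (4 * Real.log n + c) * F p q n := by linarith
  have h10 := le_of_mul_le_mul_left h9 (Real.exp_pos _)
  rw [le_div_iff₀ (by norm_num)]
  nlinarith

/-- local regularity -/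
theorem reg {p q : ℕ} (hp : 2 ≤ p) (hq : 2 ≤ q) (hcop : Nat.Coprime q p) {ε θ : ℝ}
    (hε : 0 < ε) (hθ : 0 < θ) :
    ∃ (c : ℝ) (n2 : ℕ), 0 ≤ c ∧ 1 ≤ n2 ∧ ∀ n, n2 ≤ n → ∀ k : ℕ,
      (k : ℝ) * Real.log p ≤ (1 - θ) * Real.log n → ∀ s ≤ p ^ k, s ≤ n ∧
        (F p q n : ℝ) ≤ Real.exp (ε * Real.log n + c) * F p q (n - s) := by
  obtain ⟨J, δ, c, C, n1, hδ, hpos, hcl, hc, hC, hn1, hδε, hF, hmain⟩ :=
    am_package hp hq hcop (show 0 < ε / 2 by linarith)
  obtain ⟨n2, hn2⟩ := G_small hp hq hcop hθ hC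
  have hl2 : 0 < Real.log 2 := Real.log_pos (by norm_num)
  have hlp : 0 < Real.log p := Real.log_pos (by exact_mod_cast (by omega : 1 < p))
  refine ⟨Real.log 2 + c, n1 + n2, by positivity, by omega, fun n hn k hk s hs => ?_⟩
  have hn1' : (1 : ℝ) ≤ n := by exact_mod_cast (by omega : 1 ≤ n)
  have hln : 0 ≤ Real.log n := Real.log_nonneg hn1'
  have hp0 : (0 : ℝ) < p := by exact_mod_cast (by omega : 0 < p)
  have hkn : (k : ℝ) * Real.log p ≤ Real.log n := by nlinarith
  have hpkn : p ^ k ≤ n := by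
    have : ((p : ℝ)) ^ k ≤ n := by
      rw [← Real.log_le_log_iff (by positivity) (by linarith), Real.log_pow]
      exact hkn
    exact_mod_cast this
  have hsn : s ≤ n := hs.trans hpkn
  refine ⟨hsn, ?_⟩
  have h1 := claim hp hq J hδ.le hpos hcl (M := Real.exp (ε / 2 * Real.log n + c)) (C := C)
    (Real.exp_pos _).le hC n (fun n' m hn' hm => hmain n (by omega) n' m hn' hm) k
    ((n - s : ℕ) : ℤ) (n : ℤ) (by push_cast [Nat.cast_sub hsn]; omega) (by
      have h2 : (s : ℤ) ≤ (p : ℤ) ^ k := by exact_mod_cast hs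
      have h3 : (0 : ℤ) ≤ rs q (range J) := by positivity
      rw [Nat.cast_sub hsn]; omega)
  rw [FZ_nat, FZ_nat] at h1
  have h2 := hn2 n (by omega) k hk
  have h3 : (1 + δ) ^ k ≤ Real.exp (ε / 2 * Real.log n) := by
    calc (1 + δ) ^ k ≤ (Real.exp δ) ^ k := by
          apply pow_le_pow_left₀ (by linarith)
          have := Real.add_one_le_exp δ
          linarith
      _ = Real.exp (k * δ) := by rw [← Real.exp_nat_mul]
      _ ≤ _ := by
          apply Real.exp_le_exp.2
          have : (k : ℝ) * δ ≤ k * (ε / 2 * Real.log p) :=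
            mul_le_mul_of_nonneg_left hδε (Nat.cast_nonneg _)
          nlinarith
  have h4 : (1 + δ) ^ k * Real.exp (ε / 2 * Real.log n + c) * F p q (n - s) ≤
      Real.exp (ε / 2 * Real.log n) * Real.exp (ε / 2 * Real.log n + c) * F p q (n - s) := by
    apply mul_le_mul_of_nonneg_right _ (Nat.cast_nonneg _)
    exact mul_le_mul_of_nonneg_right h3 (Real.exp_pos _).le
  have h5 : Real.exp (ε * Real.log n + (Real.log 2 + c)) =
      2 * (Real.exp (ε / 2 * Real.log n) * Real.exp (ε / 2 * Real.log n + c)) := by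
    have : ε * Real.log n + (Real.log 2 + c) =
        Real.log 2 + (ε / 2 * Real.log n + (ε / 2 * Real.log n + c)) := by ring
    rw [this, Real.exp_add, Real.exp_add, Real.exp_log (by norm_num)]
  rw [h5]
  linarith

end Pool.Agent.X34.PQ
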