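import Pool.Agent.X34.PQ.Basic

/-!
Equidistribution of row sums modulo `p` and the one step comparison.
-/

namespace Pool.Agent.X34.PQ

open Finset

theorem closed_univ {h : ℕ} [NeZero h] (A : Finset (ZMod h)) (hne : A.Nonempty) (u v : ℕ)
    (hcop : Nat.Coprime u v) (hu : ∀ a ∈ A, a + (u : ZMod h) ∈ A)
    (hv : ∀ a ∈ A, a + (v : ZMod h) ∈ A) : A = univ := by
  have hmul : ∀ t : ZMod h, (∀ a ∈ A, a + t ∈ A) → ∀ k : ℕ, ∀ a ∈ A, a + (k : ZMod h) * t ∈ A := by
    intro t ht k
    induction k with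
    | zero => intro a ha; simpa using ha
    | succ k ih =>
      intro a ha
      have := ht _ (ih a ha)
      have e : a + ((k + 1 : ℕ) : ZMod h) * t = a + (k : ZMod h) * t + t := by push_cast; ring
      rw [e]; exact this
  have hone : ∀ a ∈ A, a + 1 ∈ A := by
    intro a ha
    have h1 : (1 : ℤ) = u * u.gcdA v + v * u.gcdB v := by
      have := Nat.gcd_eq_gcd_ab u v
      rw [hcop.gcd_eq_one] at this
      exact_mod_cast this
    have h2 : (1 : ZMod h) = ((u.gcdA v : ℤ) : ZMod h) * u + ((u.gcdB v : ℤ) : ZMod h) * v := by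
      have := congrArg (fun z : ℤ => (z : ZMod h)) h1
      simp only [Int.cast_one, Int.cast_add, Int.cast_mul, Int.cast_natCast] at this
      rw [this]; ring
    have h3 := hmul _ hu (((u.gcdA v : ℤ) : ZMod h).val) a ha
    have h4 := hmul _ hv (((u.gcdB v : ℤ) : ZMod h).val) _ h3
    rw [ZMod.natCast_zmod_val, ZMod.natCast_zmod_val] at h4
    rw [h2, ← add_assoc]
    exact h4
  obtain ⟨a, ha⟩ := hne
  ext b
  simp only [mem_univ, iff_true]
  have := hmul 1 hone ((b - a).val) a ha
  rw [ZMod.natCast_zmod_val] at this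
  simpa using this

/-- number of subsets of the first `J` powers with a given residue -/
noncomputable def cnt (p q J : ℕ) (c : ZMod p) : ℕ :=
  ((range J).powerset.filter (fun L => (rs q L : ZMod p) = c)).card

theorem rs_insert {q : ℕ} {a : ℕ} {B : Finset ℕ} (h : a ∉ B) : rs q (insert a B) = q ^ a + rs q B := by
  unfold rs; exact Finset.sum_insert h

theorem rs_union {q : ℕ} {B C : Finset ℕ} (h : Disjoint B C) : rs q (B ∪ C) = rs q B + rs q C := by
  unfold rs; exact Finset.sum_union h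

theorem rs_mono {q : ℕ} {B C : Finset ℕ} (h : B ⊆ C) : rs q B ≤ rs q C := by
  unfold rs; exact Finset.sum_le_sum_of_subset h

/-- subset sums of the first `p - 1` powers of `q` cover all residues modulo `p` -/
theorem cover {p q : ℕ} (hp : 2 ≤ p) (hcop : Nat.Coprime q p) (c : ZMod p) :
    ∃ A ⊆ range (p - 1), (rs q A : ZMod p) = c := by
  haveI : NeZero p := ⟨by omega⟩
  have key : ∀ k : ℕ, min p (k + 1) ≤
      ((range k).powerset.image (fun A => (rs q A : ZMod p))).card := by
    intro k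
    induction k with
    | zero =>
      simp only [range_zero, powerset_empty, image_singleton, card_singleton]
      omega
    | succ k ih =>
      set S := (range k).powerset.image (fun A => (rs q A : ZMod p)) with hS
      set S' := (range (k + 1)).powerset.image (fun A => (rs q A : ZMod p)) with hS'
      have hsub : S ⊆ S' := by
        intro x hx
        rw [hS, mem_image] at hx
        obtain ⟨A, hA, rfl⟩ := hx
        rw [hS', mem_image]
        refine ⟨A, ?_, rfl⟩
        rw [mem_powerset] at hA ⊢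
        exact hA.trans (Finset.range_subset_range.2 (by omega))
      have hshift : ∀ x ∈ S, x + ((q ^ k : ℕ) : ZMod p) ∈ S' := by
        intro x hx
        rw [hS, mem_image] at hx
        obtain ⟨A, hA, rfl⟩ := hx
        rw [mem_powerset] at hA
        rw [hS', mem_image]
        have hk : k ∉ A := fun h => by simpa using hA h
        refine ⟨insert k A, ?_, ?_⟩
        · rw [mem_powerset, Finset.range_add_one]
          exact Finset.insert_subset_insert _ hA
        · rw [rs_insert hk]; push_cast; ring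
      rcases Nat.lt_or_ge S.card p with hlt | hge
      · have hne : ∃ x ∈ S, x + ((q ^ k : ℕ) : ZMod p) ∉ S := by
          by_contra hcon
          push Not at hcon
          have := closed_univ S ⟨0, by
            rw [hS, mem_image]; exact ⟨∅, by simp, by simp [rs]⟩⟩ (q ^ k) p
            (Nat.Coprime.pow_left _ hcop) hcon (by intro a ha; simpa using ha)
          rw [this, card_univ, ZMod.card] at hlt
          omega
        obtain ⟨x, hx, hx'⟩ := hne
        have h1 : S ⊂ S' := by
          refine Finset.ssubset_iff_subset_ne.2 ⟨hsub, ?_⟩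
          intro h
          apply hx'
          rw [h]
          exact hshift x hx
        have := Finset.card_lt_card h1
        omega
      · have := Finset.card_le_card hsub
        omega
  have h1 := key (p - 1)
  have h2 : p - 1 + 1 = p := by omega
  rw [h2, min_self] at h1
  have h3 : (range (p - 1)).powerset.image (fun A => (rs q A : ZMod p)) = univ := by
    apply Finset.eq_univ_of_card
    rw [ZMod.card]
    apply le_antisymm _ h1
    have := Finset.card_le_univ ((range (p - 1)).powerset.image (fun A => (rs q A : ZMod p)))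
    rwa [ZMod.card] at this
  have h4 : c ∈ (range (p - 1)).powerset.image (fun A => (rs q A : ZMod p)) := by
    rw [h3]; exact mem_univ _
  rw [mem_image] at h4
  obtain ⟨A, hA, hA'⟩ := h4
  exact ⟨A, by simpa using hA, hA'⟩

theorem cnt_succ (p q J : ℕ) (c : ZMod p) :
    cnt p q (J + 1) c = cnt p q J c + cnt p q J (c - ((q ^ J : ℕ) : ZMod p)) := by
  unfold cnt
  rw [Finset.card_filter, Finset.card_filter, Finset.card_filter, Finset.range_add_one,
    Finset.sum_powerset_insert (by simp)]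
  congr 1
  refine Finset.sum_congr rfl fun A hA => ?_
  rw [mem_powerset] at hA
  have hk : J ∉ A := fun h => by simpa using hA h
  rw [rs_insert hk]
  congr 1
  rw [eq_iff_iff]
  push_cast
  constructor
  · intro h; rw [← h]; ring
  · intro h; rw [h]; ring

theorem cnt_add (p q J a : ℕ) (c : ZMod p) :
    cnt p q (J + a) c = ∑ A ∈ (range a).powerset, cnt p q J (c - ((q ^ J * rs q A : ℕ) : ZMod p)) := by
  induction a generalizing c with
  | zero => simp [rs]
  | succ a ih =>
    rw [← add_assoc, cnt_succ, ih, ih, Finset.range_add_one, Finset.sum_powerset_insert (by simp)]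
    congr 1
    refine Finset.sum_congr rfl fun A hA => ?_
    rw [mem_powerset] at hA
    have hk : a ∉ A := fun h => by simpa using hA h
    rw [rs_insert hk]
    congr 1
    push_cast
    ring

theorem cnt_diff {p q : ℕ} (hp : 2 ≤ p) (hcop : Nat.Coprime q p) (k : ℕ) (c c' : ZMod p) :
    cnt p q (k * (p - 1)) c ≤ cnt p q (k * (p - 1)) c' + (2 ^ (p - 1) - 1) ^ k := by
  haveI : NeZero p := ⟨by omega⟩
  induction k generalizing c c' with
  | zero =>
    simp only [zero_mul, pow_zero]
    have : cnt p q 0 c ≤ 1 := by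
      unfold cnt
      apply (Finset.card_filter_le _ _).trans
      simp
    omega
  | succ k ih =>
    rw [add_mul, one_mul, cnt_add, cnt_add]
    set J := k * (p - 1) with hJ
    have hunit : IsUnit ((q ^ J : ℕ) : ZMod p) := by
      rw [ZMod.isUnit_iff_coprime]; exact Nat.Coprime.pow_left _ hcop
    obtain ⟨u, hu⟩ := hunit
    obtain ⟨A0, hA0, hA0'⟩ := cover hp hcop ((c' - c) * (u⁻¹ : (ZMod p)ˣ))
    have h0 : c' - ((q ^ J * rs q A0 : ℕ) : ZMod p) = c := by
      push_cast at hu ⊢
      rw [hA0', ← hu]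
      have : (u : ZMod p) * ((c' - c) * (u⁻¹ : (ZMod p)ˣ)) = c' - c := by
        rw [mul_comm, mul_assoc, Units.inv_mul, mul_one]
      rw [this]; ring
    set P := (range (p - 1)).powerset with hP
    have hPcard : P.card = 2 ^ (p - 1) := by rw [hP, card_powerset, card_range]
    have hmem0 : (∅ : Finset ℕ) ∈ P := by rw [hP]; simp
    have hmemA : A0 ∈ P := by rw [hP, mem_powerset]; exact hA0
    rw [← Finset.add_sum_erase P _ hmem0, ← Finset.add_sum_erase P _ hmemA, h0]
    have h1 : c - ((q ^ J * rs q ∅ : ℕ) : ZMod p) = c := by simp [rs]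
    rw [h1]
    have hc1 : (P.erase ∅).card = 2 ^ (p - 1) - 1 := by rw [Finset.card_erase_of_mem hmem0, hPcard]
    have hc2 : (P.erase A0).card = 2 ^ (p - 1) - 1 := by rw [Finset.card_erase_of_mem hmemA, hPcard]
    have hM : ∃ mn : ℕ, (∀ d, mn ≤ cnt p q J d) ∧ ∀ d, cnt p q J d ≤ mn + (2 ^ (p - 1) - 1) ^ k := by
      obtain ⟨d0, _, hd0⟩ := Finset.exists_min_image (univ : Finset (ZMod p)) (cnt p q J) ⟨0, mem_univ _⟩
      exact ⟨cnt p q J d0, fun d => hd0 d (mem_univ _), fun d => ih d d0⟩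
    obtain ⟨mn, h2, h3⟩ := hM
    have h4 : ∑ A ∈ P.erase ∅, cnt p q J (c - ((q ^ J * rs q A : ℕ) : ZMod p)) ≤
        (2 ^ (p - 1) - 1) * (mn + (2 ^ (p - 1) - 1) ^ k) := by
      rw [← hc1, ← smul_eq_mul]
      apply Finset.sum_le_card_nsmul
      intro A _; rw [hc1]; exact h3 _
    have h5 : (2 ^ (p - 1) - 1) * mn ≤
        ∑ A ∈ P.erase A0, cnt p q J (c' - ((q ^ J * rs q A : ℕ) : ZMod p)) := by
      rw [← hc2, ← smul_eq_mul]
      apply Finset.card_nsmul_le_sum
      intro A _; exact h2 _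
    have h6 : (2 ^ (p - 1) - 1) * (mn + (2 ^ (p - 1) - 1) ^ k) =
        (2 ^ (p - 1) - 1) * mn + (2 ^ (p - 1) - 1) ^ (k + 1) := by ring
    omega

theorem cnt_sum {p q : ℕ} [NeZero p] (J : ℕ) : ∑ c : ZMod p, cnt p q J c = 2 ^ J := by
  unfold cnt
  rw [← Finset.card_eq_sum_card_fiberwise (f := fun L => (rs q L : ZMod p)) (t := univ)
    (fun _ _ => mem_univ _), card_powerset, card_range]

/-- near equidistribution -/
theorem equi {p q : ℕ} (hp : 2 ≤ p) (hcop : Nat.Coprime q p) {δ : ℝ} (hδ : 0 < δ) :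
    ∃ J : ℕ, (∀ c, 0 < cnt p q J c) ∧
      ∀ c c' : ZMod p, (cnt p q J c : ℝ) ≤ (1 + δ) * cnt p q J c' := by
  haveI : NeZero p := ⟨by omega⟩
  set P : ℕ := 2 ^ (p - 1) with hP
  have hP2 : 2 ≤ P := by
    rw [hP]
    calc 2 = 2 ^ 1 := by norm_num
      _ ≤ 2 ^ (p - 1) := Nat.pow_le_pow_right (by norm_num) (by omega)
  have hPr : (2 : ℝ) ≤ P := by exact_mod_cast hP2
  have hp0 : (0 : ℝ) < p := by exact_mod_cast (by omega : 0 < p)
  obtain ⟨k, hk⟩ := exists_pow_lt_of_lt_one (show (0 : ℝ) < δ / ((1 + δ) * p) by positivity)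
    (show ((P : ℝ) - 1) / P < 1 by rw [div_lt_one (by linarith)]; linarith)
  have hk' : ((P : ℝ) - 1) ^ k * ((1 + δ) * p) < δ * P ^ k := by
    rw [div_pow, div_lt_div_iff₀ (by positivity) (by positivity)] at hk
    linarith
  have hcast : (((P - 1) ^ k : ℕ) : ℝ) = ((P : ℝ) - 1) ^ k := by
    rw [Nat.cast_pow, Nat.cast_sub (by omega)]; simp
  have hlow : ∀ c' : ZMod p, (P : ℝ) ^ k ≤ p * (cnt p q (k * (p - 1)) c' + ((P : ℝ) - 1) ^ k) := by
    intro c'
    have h1 : ∑ c : ZMod p, cnt p q (k * (p - 1)) c ≤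
        ∑ _c : ZMod p, (cnt p q (k * (p - 1)) c' + (P - 1) ^ k) :=
      Finset.sum_le_sum fun c _ => cnt_diff hp hcop k c c'
    rw [cnt_sum, Finset.sum_const, card_univ, ZMod.card, smul_eq_mul] at h1
    have h2 : 2 ^ (k * (p - 1)) = P ^ k := by rw [hP, ← pow_mul, mul_comm]
    rw [h2] at h1
    have h3 : ((P ^ k : ℕ) : ℝ) ≤ ((p * (cnt p q (k * (p - 1)) c' + (P - 1) ^ k) : ℕ) : ℝ) := by
      exact_mod_cast h1
    push_cast at h3
    rw [← hcast]
    push_cast
    exact h3
  have hmain : ∀ c' : ZMod p, ((P : ℝ) - 1) ^ k < δ * cnt p q (k * (p - 1)) c' := by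
    intro c'
    have h1 := hlow c'
    have h2 : δ * (P : ℝ) ^ k ≤ δ * (p * (cnt p q (k * (p - 1)) c' + ((P : ℝ) - 1) ^ k)) :=
      mul_le_mul_of_nonneg_left h1 hδ.le
    have h3 : ((P : ℝ) - 1) ^ k * p < δ * p * cnt p q (k * (p - 1)) c' := by nlinarith
    have h4 : (((P : ℝ) - 1) ^ k - δ * cnt p q (k * (p - 1)) c') * p < 0 := by linarith
    by_contra hcon
    push Not at hcon
    have : 0 ≤ (((P : ℝ) - 1) ^ k - δ * cnt p q (k * (p - 1)) c') * p :=
      mul_nonneg (by linarith) hp0.le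
    linarith
  refine ⟨k * (p - 1), ?_, ?_⟩
  · intro c
    have h1 := hmain c
    have h2 : 0 ≤ ((P : ℝ) - 1) ^ k := pow_nonneg (by linarith) _
    by_contra h
    have : cnt p q (k * (p - 1)) c = 0 := by omega
    rw [this] at h1; simp at h1; linarith
  · intro c c'
    have h1 : (cnt p q (k * (p - 1)) c : ℝ) ≤
        ((cnt p q (k * (p - 1)) c' + (P - 1) ^ k : ℕ) : ℝ) := by
      exact_mod_cast cnt_diff hp hcop k c c'
    rw [Nat.cast_add, hcast] at h1
    have := hmain c'
    linarith

theorem split_sum {M : Type*} [AddCommMonoid M] {J N : ℕ} (hJ : J ≤ N) (g : Finset ℕ → M) :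
    ∑ B ∈ (range N).powerset, g B =
      ∑ H ∈ (Ico J N).powerset, ∑ L ∈ (range J).powerset, g (L ∪ H) := by
  rw [← Finset.sum_product']
  symm
  refine Finset.sum_nbij' (fun x => x.2 ∪ x.1) (fun B => (B.filter (fun j => ¬ j < J), B.filter (fun j => j < J)))
    ?_ ?_ ?_ ?_ ?_
  · rintro ⟨H, L⟩ hx
    simp only [mem_product, mem_powerset] at hx ⊢
    apply Finset.union_subset
    · exact hx.2.trans (Finset.range_subset_range.2 hJ)
    · intro j hj
      have := hx.1 hj
      simp only [mem_Ico, mem_range] at this ⊢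
      omega
  · intro B hB
    simp only [mem_product, mem_powerset] at hB ⊢
    constructor
    · intro j hj
      simp only [mem_filter] at hj
      have := hB hj.1
      simp only [mem_Ico, mem_range] at this ⊢
      omega
    · intro j hj
      simp only [mem_filter] at hj
      simpa using hj.2
  · rintro ⟨H, L⟩ hx
    simp only [mem_product, mem_powerset] at hx
    simp only [Prod.mk.injEq]
    constructor
    · ext j
      simp only [mem_filter, mem_union]
      constructor
      · rintro ⟨h | h, h'⟩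
        · have := hx.2 h; simp at this; omega
        · exact h
      · intro h
        have := hx.1 h
        simp only [mem_Ico] at this
        exact ⟨Or.inr h, by omega⟩
    · ext j
      simp only [mem_filter, mem_union]
      constructor
      · rintro ⟨h | h, h'⟩
        · exact h
        · have := hx.1 h; simp only [mem_Ico] at this; omega
      · intro h
        have := hx.2 h
        simp only [mem_range] at this
        exact ⟨Or.inl h, this⟩
  · intro B hB
    ext j
    simp only [mem_filter, mem_union]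
    tauto
  · rintro ⟨H, L⟩ hx
    rfl

theorem dvd_iff_cls {p q : ℕ} (x : ℤ) (L : Finset ℕ) :
    (p : ℤ) ∣ x - rs q L ↔ (rs q L : ZMod p) = (x : ZMod p) := by
  rw [← ZMod.intCast_zmod_eq_zero_iff_dvd]
  push_cast
  rw [sub_eq_zero]
  exact eq_comm

/-- one step comparison -/
theorem one_step {p q : ℕ} (hp : 2 ≤ p) (hq : 2 ≤ q) (J : ℕ) {δ : ℝ} (hδ : 0 ≤ δ)
    (hpos : ∀ c, 0 < cnt p q J c)
    (hcl : ∀ c c' : ZMod p, (cnt p q J c : ℝ) ≤ (1 + δ) * cnt p q J c')
    {A : ℝ} (hA : 0 ≤ A) (E : ℤ → ℝ) {m n σ σ' : ℤ}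
    (hmn : m ≤ n + σ) (hσ : σ + rs q (range J) ≤ p * σ')
    (hyp : ∀ v v' : ℤ, p * v' ≤ n → v ≤ v' + σ' → (FZ p q v : ℝ) ≤ A * FZ p q v' + E v)
    (N : ℕ) (hm : m ≤ N) (hn : n ≤ N) (hJ : J ≤ N) :
    (FZ p q m : ℝ) ≤ (1 + δ) * A * FZ p q n +
      ∑ B ∈ (range N).powerset, if (p : ℤ) ∣ m - rs q B then E ((m - rs q B) / p) else 0 := by
  have hp0 : (0 : ℤ) < p := by exact_mod_cast (by omega : 0 < p)
  rw [FZ_rec hp hq m N hm, FZ_rec hp hq n N hn]
  rw [split_sum hJ, split_sum hJ, split_sum hJ]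
  push_cast
  rw [Finset.mul_sum, ← Finset.sum_add_distrib]
  apply Finset.sum_le_sum
  intro H hH
  rw [mem_powerset] at hH
  have hdisj : ∀ L ∈ (range J).powerset, Disjoint L H := by
    intro L hL
    rw [mem_powerset] at hL
    rw [Finset.disjoint_left]
    intro j hj hj'
    have h1 := hL hj
    have h2 := hH hj'
    simp only [mem_Ico, mem_range] at h1 h2
    omega
  set x : ℤ := m - rs q H with hx
  set y : ℤ := n - rs q H with hy
  have ex : ∀ L ∈ (range J).powerset, m - ((rs q (L ∪ H) : ℕ) : ℤ) = x - rs q L := by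
    intro L hL
    rw [rs_union (hdisj L hL), hx]; push_cast; ring
  have ey : ∀ L ∈ (range J).powerset, n - ((rs q (L ∪ H) : ℕ) : ℤ) = y - rs q L := by
    intro L hL
    rw [rs_union (hdisj L hL), hy]; push_cast; ring
  set CX := (range J).powerset.filter (fun L => (rs q L : ZMod p) = (x : ZMod p)) with hCX
  set CY := (range J).powerset.filter (fun L => (rs q L : ZMod p) = (y : ZMod p)) with hCY
  have e1 : ∑ L ∈ (range J).powerset, (if (p : ℤ) ∣ m - rs q (L ∪ H) then
      (FZ p q ((m - rs q (L ∪ H)) / p) : ℝ) else 0) = ∑ L ∈ CX, (FZ p q ((x - rs q L) / p) : ℝ) := by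
    rw [hCX, Finset.sum_filter]
    refine Finset.sum_congr rfl fun L hL => ?_
    rw [ex L hL]
    simp only [dvd_iff_cls]
  have e2 : ∑ L ∈ (range J).powerset, (if (p : ℤ) ∣ n - rs q (L ∪ H) then
      (FZ p q ((n - rs q (L ∪ H)) / p) : ℝ) else 0) = ∑ L ∈ CY, (FZ p q ((y - rs q L) / p) : ℝ) := by
    rw [hCY, Finset.sum_filter]
    refine Finset.sum_congr rfl fun L hL => ?_
    rw [ey L hL]
    simp only [dvd_iff_cls]
  have e3 : ∑ L ∈ (range J).powerset, (if (p : ℤ) ∣ m - rs q (L ∪ H) then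
      E ((m - rs q (L ∪ H)) / p) else 0) = ∑ L ∈ CX, E ((x - rs q L) / p) := by
    rw [hCX, Finset.sum_filter]
    refine Finset.sum_congr rfl fun L hL => ?_
    rw [ex L hL]
    simp only [dvd_iff_cls]
  rw [e1, e2, e3]
  have hpt : ∀ L ∈ CX, ∀ L' ∈ CY, (FZ p q ((x - rs q L) / p) : ℝ) ≤
      A * FZ p q ((y - rs q L') / p) + E ((x - rs q L) / p) := by
    intro L hL L' hL'
    rw [hCX, mem_filter] at hL
    rw [hCY, mem_filter] at hL'
    have h1 := (dvd_iff_cls (p := p) (q := q) x L).2 hL.2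
    have h2 := (dvd_iff_cls (p := p) (q := q) y L').2 hL'.2
    obtain ⟨a, ha⟩ := h1
    obtain ⟨b, hb⟩ := h2
    rw [ha, hb, Int.mul_ediv_cancel_left _ hp0.ne', Int.mul_ediv_cancel_left _ hp0.ne']
    have h3 : (rs q L' : ℤ) ≤ rs q (range J) := by
      exact_mod_cast rs_mono (mem_powerset.1 hL'.1)
    have h4 : (0 : ℤ) ≤ rs q L' := by positivity
    have h5 : (0 : ℤ) ≤ rs q L := by positivity
    have h6 : (0 : ℤ) ≤ rs q H := by positivity
    apply hyp
    · rw [← hb, hy]; omega
    · have : (p : ℤ) * (a - b) ≤ p * σ' := by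
        have : (p : ℤ) * (a - b) = p * a - p * b := by ring
        rw [this, ← ha, ← hb, hx, hy]; omega
      have := le_of_mul_le_mul_left this hp0
      omega
  have hcX : (CX.card : ℝ) ≤ (1 + δ) * CY.card := hcl (x : ZMod p) (y : ZMod p)
  have hcY : 0 < CY.card := hpos (y : ZMod p)
  have hcY' : (0 : ℝ) < CY.card := by exact_mod_cast hcY
  have hdouble : ∑ L' ∈ CY, ∑ L ∈ CX, (FZ p q ((x - rs q L) / p) : ℝ) ≤
      ∑ L' ∈ CY, ∑ L ∈ CX, (A * FZ p q ((y - rs q L') / p) + E ((x - rs q L) / p)) :=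
    Finset.sum_le_sum fun L' hL' => Finset.sum_le_sum fun L hL => hpt L hL L' hL'
  simp only [Finset.sum_const, Finset.sum_add_distrib, nsmul_eq_mul] at hdouble
  rw [← Finset.mul_sum, ← Finset.mul_sum] at hdouble
  set SX := ∑ L ∈ CX, (FZ p q ((x - rs q L) / p) : ℝ)
  set SY := ∑ L ∈ CY, (FZ p q ((y - rs q L) / p) : ℝ)
  set SE := ∑ L ∈ CX, E ((x - rs q L) / p)
  have hSY : 0 ≤ A * SY := mul_nonneg hA (Finset.sum_nonneg fun _ _ => Nat.cast_nonneg _)
  have h7 : (CX.card : ℝ) * (A * SY) ≤ (1 + δ) * CY.card * (A * SY) :=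
    mul_le_mul_of_nonneg_right hcX hSY
  have h8 : (CY.card : ℝ) * SX ≤ CY.card * ((1 + δ) * A * SY + SE) := by nlinarith
  exact le_of_mul_le_mul_left h8 hcY'

end Pool.Agent.X34.PQ
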